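import Pool.Agent.Lib.MP_e7c36a_al.Core

set_option autoImplicit false
set_option linter.unusedSimpArgs false

namespace Pool.Agent.Lib.MP_e7c36a_al

section shifts

variable {σ : Type}

lemma shiftHom_of (g : Multiplicative ℤ) (i : ℤ) (j : σ) :
    shiftHom σ g (FreeGroup.of (i, j)) = FreeGroup.of (i + g.toAdd, j) := by
  have key : ∀ n : ℤ, ∀ i : ℤ, ((shiftZ σ : MulAut (FreeGroup (ℤ × σ))) ^ n) (FreeGroup.of (i, j)) =
      FreeGroup.of (i + n, j) := by
    intro n
    induction n with
    | zero => intro i; simp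
    | succ n ih =>
      intro i
      rw [zpow_add, zpow_one, MulAut.mul_apply, shiftZ_of, ih]
      congr 2
      ring
    | pred n ih =>
      intro i
      rw [zpow_sub, zpow_one, MulAut.mul_apply]
      have h1 : ((shiftZ σ : MulAut (FreeGroup (ℤ × σ)))⁻¹) (FreeGroup.of (i, j)) =
          FreeGroup.of (i - 1, j) := by
        rw [MulAut.inv_apply, MulEquiv.symm_apply_eq, shiftZ_of, sub_add_cancel]
      rw [h1, ih]
      congr 2
      ring
  exact key g.toAdd i

variable {Γ : Type} [Group Γ]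

/-- the evaluation at conjugates by all powers of `t` -/
def lamN (t : Γ) (s : σ → Γ) : FreeGroup (ℤ × σ) →* Γ :=
  FreeGroup.lift (fun p => t ^ p.1 * s p.2 * (t ^ p.1)⁻¹)

lemma lamN_of (t : Γ) (s : σ → Γ) (i : ℤ) (j : σ) :
    lamN t s (FreeGroup.of (i, j)) = t ^ i * s j * (t ^ i)⁻¹ := by simp [lamN]

lemma lamN_shift (t : Γ) (s : σ → Γ) (g : Multiplicative ℤ) (w : FreeGroup (ℤ × σ)) :
    lamN t s (shiftHom σ g w) = t ^ g.toAdd * lamN t s w * (t ^ g.toAdd)⁻¹ := by
  have : (lamN t s).comp (shiftHom σ g).toMonoidHom =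
      (MulAut.conj (t ^ g.toAdd)).toMonoidHom.comp (lamN t s) := by
    ext1 p
    obtain ⟨i, j⟩ := p
    change lamN t s (shiftHom σ g (FreeGroup.of (i, j))) =
      t ^ g.toAdd * lamN t s (FreeGroup.of (i, j)) * (t ^ g.toAdd)⁻¹
    rw [shiftHom_of, lamN_of, lamN_of]
    group
  exact DFunLike.congr_fun this w

/-- the homomorphism from the universal semidirect product -/
def Lam (t : Γ) (s : σ → Γ) :
    FreeGroup (ℤ × σ) ⋊[shiftHom σ] Multiplicative ℤ →* Γ :=
  SemidirectProduct.lift (lamN t s) (zpowersHom Γ t) (by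
    intro g
    ext1 p
    exact lamN_shift t s g (FreeGroup.of p))

lemma Lam_apply (t : Γ) (s : σ → Γ) (x : FreeGroup (ℤ × σ) ⋊[shiftHom σ] Multiplicative ℤ) :
    Lam t s x = lamN t s x.left * t ^ x.right.toAdd := rfl

lemma Lam_eq_one_iff (t : Γ) (s : σ → Γ) (φ : Γ →* Multiplicative ℤ)
    (ht : φ t = Multiplicative.ofAdd 1) (hs : ∀ j, φ (s j) = 1)
    (x : FreeGroup (ℤ × σ) ⋊[shiftHom σ] Multiplicative ℤ) :
    Lam t s x = 1 ↔ x.right = 1 ∧ lamN t s x.left = 1 := by
  have h1 : ∀ w, φ (lamN t s w) = 1 := by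
    intro w
    have : φ.comp (lamN t s) = 1 := by
      ext1 p
      obtain ⟨i, j⟩ := p
      rw [MonoidHom.comp_apply, lamN_of, map_mul, map_mul, map_inv, hs, mul_one, mul_inv_cancel]
      rfl
    exact DFunLike.congr_fun this w
  rw [Lam_apply]
  constructor
  · intro h
    have h2 := congrArg φ h
    rw [map_mul, h1, one_mul, map_zpow, map_one φ, ht, ← ofAdd_zsmul] at h2
    have h3 : x.right = 1 := by
      have h4 : x.right.toAdd • (1 : ℤ) = 0 := h2
      rw [smul_eq_mul, mul_one] at h4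
      exact h4
    refine ⟨h3, ?_⟩
    rw [h3, toAdd_one, zpow_zero, mul_one] at h
    exact h
  · rintro ⟨h3, h4⟩
    rw [h3, h4, toAdd_one, zpow_zero, mul_one]

/-- the inclusion of the nonnegative levels -/
def iota (σ : Type) : SS σ →* FreeGroup (ℤ × σ) := FreeGroup.map (fun p => ((p.1 : ℤ), p.2))

/-- conjugation as an endomorphism -/
def cj (t : Γ) : Γ →* Γ := (MulAut.conj t).toMonoidHom

lemma cj_iter (t x : Γ) (i : ℕ) : (cj t)^[i] x = t ^ i * x * (t ^ i)⁻¹ := by
  induction i with
  | zero => simp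
  | succ i ih =>
    rw [Function.iterate_succ_apply', ih]
    change t * (t ^ i * x * (t ^ i)⁻¹) * t⁻¹ = _
    rw [pow_succ']
    group

lemma lamN_iota (t : Γ) (s : σ → Γ) (w : SS σ) : lamN t s (iota σ w) = ppi (cj t) s w := by
  have : (lamN t s).comp (iota σ) = ppi (cj t) s := by
    ext1 p
    obtain ⟨i, j⟩ := p
    have h1 : iota σ (FreeGroup.of (i, j)) = FreeGroup.of ((i : ℤ), j) := by simp [iota]
    rw [MonoidHom.comp_apply, h1, lamN_of, ppi_of, cj_iter, zpow_natCast]
  exact DFunLike.congr_fun this w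

lemma exists_iota (w : FreeGroup (ℤ × σ)) :
    ∃ (k : ℕ) (w' : SS σ), shiftHom σ (Multiplicative.ofAdd (k : ℤ)) w = iota σ w' := by
  have step : ∀ (w : FreeGroup (ℤ × σ)) (k l : ℕ) (w' : SS σ), k ≤ l →
      shiftHom σ (Multiplicative.ofAdd (k : ℤ)) w = iota σ w' →
      ∃ w'' : SS σ, shiftHom σ (Multiplicative.ofAdd (l : ℤ)) w = iota σ w'' := by
    intro w k l w' hkl h
    obtain ⟨m, rfl⟩ := Nat.exists_eq_add_of_le hkl
    refine ⟨FreeGroup.map (fun p => (p.1 + m, p.2)) w', ?_⟩
    have h1 : (Multiplicative.ofAdd ((k + m : ℕ) : ℤ)) =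
        Multiplicative.ofAdd (m : ℤ) * Multiplicative.ofAdd (k : ℤ) := by
      rw [← ofAdd_add]
      congr 1
      push_cast
      ring
    rw [h1, map_mul, MulAut.mul_apply, h]
    have : (shiftHom σ (Multiplicative.ofAdd (m : ℤ))).toMonoidHom.comp (iota σ) =
        (iota σ).comp (FreeGroup.map (fun p => (p.1 + m, p.2))) := by
      ext1 p
      obtain ⟨i, j⟩ := p
      change shiftHom σ (Multiplicative.ofAdd (m : ℤ)) (iota σ (FreeGroup.of (i, j))) =
        iota σ (FreeGroup.map (fun p => (p.1 + m, p.2)) (FreeGroup.of (i, j)))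
      simp only [iota, FreeGroup.map.of]
      rw [shiftHom_of, toAdd_ofAdd]
      push_cast
      rfl
    exact DFunLike.congr_fun this w'
  induction w using FreeGroup.induction_on with
  | C1 => exact ⟨0, 1, by rw [map_one, map_one]⟩
  | of y =>
    obtain ⟨i, j⟩ := y
    refine ⟨i.natAbs, FreeGroup.of ((i + i.natAbs).toNat, j), ?_⟩
    have h2 : ((i + i.natAbs).toNat : ℤ) = i + i.natAbs := Int.toNat_of_nonneg (by omega)
    change shiftHom σ (Multiplicative.ofAdd (i.natAbs : ℤ)) (FreeGroup.of (i, j)) = _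
    rw [shiftHom_of, toAdd_ofAdd]
    simp only [iota, FreeGroup.map.of]
    rw [h2]
  | inv_of y h =>
    obtain ⟨k, w', h'⟩ := h
    exact ⟨k, w'⁻¹, by rw [map_inv, map_inv, h']⟩
  | mul x y hx hy =>
    obtain ⟨k, w', h'⟩ := hx
    obtain ⟨l, w'', h''⟩ := hy
    obtain ⟨a, ha⟩ := step x k (max k l) w' (le_max_left _ _) h'
    obtain ⟨b, hb⟩ := step y l (max k l) w'' (le_max_right _ _) h''
    exact ⟨max k l, a * b, by rw [map_mul, map_mul, ha, hb]⟩

lemma lamN_eq_one_iff (t : Γ) (s : σ → Γ) (w : FreeGroup (ℤ × σ)) (k : ℕ) (w' : SS σ)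
    (h : shiftHom σ (Multiplicative.ofAdd (k : ℤ)) w = iota σ w') :
    lamN t s w = 1 ↔ ppi (cj t) s w' = 1 := by
  rw [← lamN_iota, ← h, lamN_shift]
  constructor
  · intro h1
    rw [h1, mul_one, mul_inv_cancel]
  · intro h1
    rw [mul_inv_eq_one] at h1
    exact mul_eq_left.mp h1

end shifts

section final

/-- The main theorem: a finitely generated group mapping onto the integers with free kernel embeds
into a group mapping onto the integers whose kernel is free of finite rank. -/
theorem embedding (G : Type) [Group G] (hG : Group.FG G) (φ : G →* Multiplicative ℤ)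
    (hφ : Function.Surjective φ) (hfree : IsFreeGroup φ.ker) :
    ∃ (H : Type) (_ : Group H) (ψ : H →* Multiplicative ℤ) (n : ℕ),
      Function.Surjective ψ ∧ Nonempty (ψ.ker ≃* FreeGroup (Fin n)) ∧
      ∃ f : G →* H, Function.Injective f := by
  classical
  obtain ⟨S, hS⟩ := hG.out
  obtain ⟨t, ht⟩ := hφ (Multiplicative.ofAdd 1)
  let σ : Type := S
  have hφt : ∀ n : ℤ, φ (t ^ n) = Multiplicative.ofAdd n := by
    intro n
    rw [map_zpow, ht, ← ofAdd_zsmul, smul_eq_mul, mul_one]
  let s : σ → G := fun g => g.1 * t ^ (-(φ g.1).toAdd)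
  have hs : ∀ j, φ (s j) = 1 := by
    intro j
    change φ (j.1 * t ^ (-(φ j.1).toAdd)) = 1
    rw [map_mul, hφt, ofAdd_neg, ofAdd_toAdd, mul_inv_cancel]
  let Y : Type := IsFreeGroup.Generators φ.ker
  let c : φ.ker ≃* FreeGroup Y := IsFreeGroup.toFreeGroup φ.ker
  let θ : FreeGroup Y ≃* FreeGroup Y := (c.symm.trans (MulAut.conjNormal t)).trans c
  let s' : σ → FreeGroup Y := fun j => c ⟨s j, hs j⟩
  obtain ⟨α, γ, hα, hγ, β, ε, hε1, hε2⟩ := core θ s'
  -- the target
  let H : Type := KK α γ ⋊[zpowersHom (MulAut (KK α γ)) (Psi β)] Multiplicative ℤ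
  let tH : H := SemidirectProduct.inr (Multiplicative.ofAdd 1)
  let sH : σ → H := fun j => SemidirectProduct.inl (ε (FreeGroup.of (0, j)))
  -- evaluation in `G`
  let u : FreeGroup Y →* G := φ.ker.subtype.comp c.symm.toMonoidHom
  have hu_inj : Function.Injective u := Subtype.val_injective.comp c.symm.injective
  have hu : ∀ w, u (ppi θ.toMonoidHom s' w) = ppi (cj t) s w := by
    apply ppi_nat
    · intro x
      change ((c.symm (c (MulAut.conjNormal t (c.symm x))) : φ.ker) : G) =
        t * ((c.symm x : φ.ker) : G) * t⁻¹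
      rw [MulEquiv.symm_apply_apply, MulAut.conjNormal_apply]
    · intro j
      change ((c.symm (c ⟨s j, hs j⟩) : φ.ker) : G) = s j
      rw [MulEquiv.symm_apply_apply]
  -- evaluation in `H`
  have hεp : ∀ w, ppi (Psi β).toMonoidHom (fun j : σ => ε (FreeGroup.of (0, j))) w = ε w := by
    intro w
    have hi : ∀ i : ℕ, ∀ j : σ, (Psi β).toMonoidHom^[i] (ε (FreeGroup.of (0, j))) =
        ε (FreeGroup.of (i, j)) := by
      intro i
      induction i with
      | zero => intro j; rfl
      | succ i ih =>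
        intro j
        rw [Function.iterate_succ_apply', ih]
        have h1 := hε2 (FreeGroup.of (i, j))
        have h2 : sh σ (FreeGroup.of (i, j)) = FreeGroup.of (i + 1, j) := by simp [sh]
        rw [h2] at h1
        exact h1.symm
    have : ppi (Psi β).toMonoidHom (fun j : σ => ε (FreeGroup.of (0, j))) = ε := by
      ext1 p
      obtain ⟨i, j⟩ := p
      rw [ppi_of, hi]
    exact DFunLike.congr_fun this w
  have hH : ∀ w, (SemidirectProduct.inl (ε w) : H) = ppi (cj tH) sH w := by
    intro w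
    rw [← hεp w]
    apply ppi_nat (u := (SemidirectProduct.inl : KK α γ →* H))
    · intro x
      change (SemidirectProduct.inl (Psi β x) : H) =
        SemidirectProduct.inr (Multiplicative.ofAdd 1) * SemidirectProduct.inl x *
          (SemidirectProduct.inr (Multiplicative.ofAdd 1))⁻¹
      rw [← map_inv SemidirectProduct.inr, ← SemidirectProduct.inl_aut]
      congr 1
    · intro j
      rfl
  have hiff : ∀ w : FreeGroup (ℤ × σ), lamN t s w = 1 ↔ lamN tH sH w = 1 := by
    intro w
    obtain ⟨k, w', h⟩ := exists_iota w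
    rw [lamN_eq_one_iff t s w k w' h, lamN_eq_one_iff tH sH w k w' h, ← hu, ← hH]
    rw [map_eq_one_iff u hu_inj, ← hε1,
      map_eq_one_iff (SemidirectProduct.inl : KK α γ →* H) SemidirectProduct.inl_injective]
  have hL : ∀ x, Lam t s x = 1 ↔ Lam tH sH x = 1 := by
    intro x
    rw [Lam_eq_one_iff t s φ ht hs x, Lam_eq_one_iff tH sH SemidirectProduct.rightHom
      (SemidirectProduct.rightHom_inr _) (fun j => SemidirectProduct.rightHom_inl _) x, hiff]
  have hsurj : Function.Surjective (Lam t s) := by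
    rw [← MonoidHom.range_eq_top, ← top_le_iff, ← hS, Subgroup.closure_le]
    intro g hg
    have h1 : t ∈ (Lam t s).range := by
      refine ⟨SemidirectProduct.inr (Multiplicative.ofAdd 1), ?_⟩
      rw [Lam_apply]
      simp
    have h2 : s ⟨g, hg⟩ ∈ (Lam t s).range := by
      refine ⟨SemidirectProduct.inl (FreeGroup.of (0, ⟨g, hg⟩)), ?_⟩
      rw [Lam_apply]
      simp [lamN_of]
    have h3 : g = s ⟨g, hg⟩ * t ^ ((φ g).toAdd) := by
      change g = g * t ^ (-(φ g).toAdd) * t ^ ((φ g).toAdd)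
      rw [mul_assoc, ← zpow_add, neg_add_cancel, zpow_zero, mul_one]
    change g ∈ (Lam t s).range
    rw [h3]
    exact mul_mem h2 (zpow_mem h1 _)
  have hker : (Lam t s).ker ≤ (Lam tH sH).ker := fun x hx => (hL x).mp hx
  let f : G →* H := (Lam t s).liftOfSurjective hsurj ⟨Lam tH sH, hker⟩
  have hf : ∀ x, f (Lam t s x) = Lam tH sH x := fun x =>
    MonoidHom.liftOfRightInverse_comp_apply _ _ (Function.rightInverse_surjInv hsurj)
      ⟨Lam tH sH, hker⟩ x
  refine ⟨H, inferInstance, SemidirectProduct.rightHom, Nat.card ((α ⊕ γ) ⊕ Unit),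
    SemidirectProduct.rightHom_surjective, ?_, f, ?_⟩
  · have e1 : KK α γ ≃* (SemidirectProduct.inl : KK α γ →* H).range :=
      MonoidHom.ofInjective SemidirectProduct.inl_injective
    have e2 : (SemidirectProduct.inl : KK α γ →* H).range =
        (SemidirectProduct.rightHom : H →* Multiplicative ℤ).ker :=
      SemidirectProduct.range_inl_eq_ker_rightHom
    have e3 : (SemidirectProduct.inl : KK α γ →* H).range ≃*
        (SemidirectProduct.rightHom : H →* Multiplicative ℤ).ker := MulEquiv.subgroupCongr e2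
    have e4 : KK α γ ≃* FreeGroup (Fin (Nat.card ((α ⊕ γ) ⊕ Unit))) :=
      FreeGroup.freeGroupCongr (Finite.equivFin _)
    exact ⟨(e1.trans e3).symm.trans e4⟩
  · rw [injective_iff_map_eq_one]
    intro g hg
    obtain ⟨x, rfl⟩ := hsurj g
    rw [hf] at hg
    exact (hL x).mpr hg

end final

end Pool.Agent.Lib.MP_e7c36a_al
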