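import Mathlib

set_option autoImplicit false
set_option linter.unusedSimpArgs false

namespace Pool.Agent.Lib.MP_e7c36a_al

open Polynomial

section noeth

variable {A : Type} [AddCommGroup A]

lemma aeval_mem (f : A →+ A) (P : AddSubgroup A) (hP : ∀ x ∈ P, f x ∈ P) (p : ℤ[X]) :
    ∀ x ∈ P, (Polynomial.aeval (f.toIntLinearMap : Module.End ℤ A) p) x ∈ P := by
  have hpow : ∀ n : ℕ, ∀ x ∈ P, ((f.toIntLinearMap : Module.End ℤ A) ^ n) x ∈ P := by
    intro n
    induction n with
    | zero => intro x hx; simpa using hx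
    | succ n ih =>
      intro x hx
      rw [pow_succ, Module.End.mul_apply]
      exact ih _ (hP x hx)
  induction p using Polynomial.induction_on' with
  | add p q hp hq =>
    intro x hx
    rw [map_add, LinearMap.add_apply]
    exact add_mem (hp x hx) (hq x hx)
  | monomial n a =>
    intro x hx
    rw [Polynomial.aeval_monomial, Module.End.mul_apply, Module.algebraMap_end_apply]
    exact P.zsmul_mem (hpow n x hx) a

/-- invariant subgroups as submodules -/
noncomputable def toSub (f : A →+ A) (P : AddSubgroup A) (hP : ∀ x ∈ P, f x ∈ P) :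
    Submodule ℤ[X] (Module.AEval' (f.toIntLinearMap : Module.End ℤ A)) where
  carrier := {x | (Module.AEval'.of (f.toIntLinearMap : Module.End ℤ A)).symm x ∈ P}
  add_mem' := by
    intro a b ha hb
    change (Module.AEval'.of (f.toIntLinearMap : Module.End ℤ A)).symm (a + b) ∈ P
    rw [map_add]
    exact add_mem ha hb
  zero_mem' := by
    change (Module.AEval'.of (f.toIntLinearMap : Module.End ℤ A)).symm 0 ∈ P
    rw [map_zero]
    exact zero_mem P
  smul_mem' := by
    intro p x hx
    exact aeval_mem f P hP p _ hx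

/-- A finitely generated `ℤ[X]`-module is Noetherian, in terms of invariant subgroups. -/
lemma noeth {σ : Type} [Finite σ] (f : A →+ A) (g : σ → A)
    (hgen : ∀ P : AddSubgroup A, (∀ j, g j ∈ P) → (∀ x ∈ P, f x ∈ P) → P = ⊤)
    (P : AddSubgroup A) (hP : ∀ x ∈ P, f x ∈ P) :
    ∃ R : Finset A, (∀ x ∈ R, x ∈ P) ∧
      ∀ P' : AddSubgroup A, (∀ x ∈ P', f x ∈ P') → (∀ x ∈ R, x ∈ P') → P ≤ P' := by
  classical
  let φ : Module.End ℤ A := f.toIntLinearMap
  let M := Module.AEval' φ
  let o : A ≃ₗ[ℤ] M := Module.AEval'.of φ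
  -- submodules give invariant subgroups
  have inv_of_sub : ∀ (U : Submodule ℤ[X] M),
      ∃ V : AddSubgroup A, (∀ x ∈ V, f x ∈ V) ∧ ∀ x, x ∈ V ↔ o x ∈ U := by
    intro U
    refine ⟨{ carrier := {x | o x ∈ U}
              add_mem' := fun {a b} ha hb => by
                change o (a + b) ∈ U
                rw [map_add]; exact add_mem ha hb
              zero_mem' := by change o 0 ∈ U; rw [map_zero]; exact zero_mem U
              neg_mem' := fun {a} ha => by
                change o (-a) ∈ U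
                rw [map_neg]; exact neg_mem ha }, ?_, fun x => Iff.rfl⟩
    intro x hx
    change o (f x) ∈ U
    have h1 : (X : ℤ[X]) • o x = o (f x) := Module.AEval.X_smul_of φ x
    rw [← h1]
    exact U.smul_mem _ hx
  have hfin : Module.Finite ℤ[X] M := by
    have hfr : (Set.range fun j => o (g j)).Finite := Set.finite_range _
    refine ⟨⟨hfr.toFinset, ?_⟩⟩
    rw [Set.Finite.coe_toFinset]
    obtain ⟨V, hV1, hV2⟩ := inv_of_sub (Submodule.span ℤ[X] (Set.range fun j => o (g j)))
    have h1 := hgen V (fun j => (hV2 _).mpr (Submodule.subset_span ⟨j, rfl⟩)) hV1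
    rw [eq_top_iff]
    intro x _
    obtain ⟨y, rfl⟩ := o.surjective x
    rw [← hV2, h1]
    trivial
  have hN : IsNoetherian ℤ[X] M := isNoetherian_of_isNoetherianRing_of_finite _ _
  obtain ⟨R, hR⟩ := hN.noetherian (toSub f P hP)
  refine ⟨R.image o.symm, ?_, ?_⟩
  · intro x hx
    obtain ⟨y, hy, rfl⟩ := Finset.mem_image.mp hx
    have h1 : y ∈ toSub f P hP := by
      rw [← hR]
      exact Submodule.subset_span hy
    exact h1
  · intro P' hP' hRP' x hx
    have h1 : o x ∈ toSub f P hP := by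
      change o.symm (o x) ∈ P
      rwa [LinearEquiv.symm_apply_apply]
    rw [← hR] at h1
    have h2 : Submodule.span ℤ[X] (R : Set M) ≤ toSub f P' hP' := by
      rw [Submodule.span_le]
      intro y hy
      exact hRP' _ (Finset.mem_image_of_mem _ hy)
    have h3 : o.symm (o x) ∈ P' := h2 h1
    rwa [LinearEquiv.symm_apply_apply] at h3

end noeth

section group

variable {σ : Type}

/-- the free group on `ℕ × σ` -/
abbrev SS (σ : Type) : Type := FreeGroup (ℕ × σ)

/-- the shift -/
def sh (σ : Type) : SS σ →* SS σ := FreeGroup.map (fun p => (p.1 + 1, p.2))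

lemma noeth_group [Finite σ] (N : Subgroup (SS σ)) (hN : ∀ w ∈ N, sh σ w ∈ N) :
    ∃ R : Finset (SS σ), (∀ x ∈ R, x ∈ N) ∧
      ∀ L : Subgroup (SS σ), (∀ w ∈ L, sh σ w ∈ L) → commutator (SS σ) ≤ L →
        (∀ x ∈ R, x ∈ L) → N ≤ L := by
  classical
  let A := Additive (Abelianization (SS σ))
  let f : A →+ A := MonoidHom.toAdditive (Abelianization.map (sh σ))
  let ab : SS σ → A := fun w => Additive.ofMul (Abelianization.of w)
  have hf : ∀ w, f (ab w) = ab (sh σ w) := fun w => rfl
  have ab_surj : ∀ a : A, ∃ w, ab w = a := by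
    intro a
    obtain ⟨w, hw⟩ := QuotientGroup.mk_surjective (Additive.toMul a)
    exact ⟨w, congrArg Additive.ofMul hw⟩
  have ab_mul : ∀ w w', ab (w * w') = ab w + ab w' := fun w w' => rfl
  -- images of invariant subgroups
  have him : ∀ L : Subgroup (SS σ), (∀ w ∈ L, sh σ w ∈ L) →
      ∃ V : AddSubgroup A, (∀ x ∈ V, f x ∈ V) ∧ ∀ x, x ∈ V ↔ ∃ w ∈ L, ab w = x := by
    intro L hL
    refine ⟨Subgroup.toAddSubgroup (L.map (Abelianization.of)), ?_, ?_⟩
    · rintro x ⟨w, hw, hx⟩
      refine ⟨sh σ w, hL w hw, ?_⟩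
      have : x = ab w := hx.symm
      subst this
      rfl
    · intro x
      constructor
      · rintro ⟨w, hw, hx⟩
        exact ⟨w, hw, hx⟩
      · rintro ⟨w, hw, hx⟩
        exact ⟨w, hw, hx⟩
  have hgen : ∀ P : AddSubgroup A, (∀ j : σ, ab (FreeGroup.of (0, j)) ∈ P) →
      (∀ x ∈ P, f x ∈ P) → P = ⊤ := by
    intro P h0 hP
    rw [eq_top_iff]
    intro a _
    obtain ⟨w, rfl⟩ := ab_surj a
    have h1 : ∀ i : ℕ, ∀ j : σ, ab (FreeGroup.of (i, j)) ∈ P := by
      intro i
      induction i with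
      | zero => exact h0
      | succ i ih =>
        intro j
        have := hP _ (ih j)
        rw [hf] at this
        simpa [sh] using this
    induction w using FreeGroup.induction_on with
    | C1 => exact zero_mem P
    | of y => exact h1 y.1 y.2
    | inv_of y h => exact neg_mem (h1 y.1 y.2)
    | mul x y hx hy =>
      rw [ab_mul]
      exact add_mem (hx trivial) (hy trivial)
  obtain ⟨P, hP1, hP2⟩ := him N hN
  obtain ⟨R', hR'1, hR'2⟩ := noeth f (fun j : σ => ab (FreeGroup.of (0, j))) hgen P hP1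
  have hch : ∀ x : A, ∃ w : SS σ, x ∈ R' → (w ∈ N ∧ ab w = x) := by
    intro x
    by_cases hx : x ∈ R'
    · obtain ⟨w, hw, hwx⟩ := (hP2 x).mp (hR'1 x hx)
      exact ⟨w, fun _ => ⟨hw, hwx⟩⟩
    · exact ⟨1, fun h => absurd h hx⟩
  choose c hc using hch
  refine ⟨R'.image c, ?_, ?_⟩
  · intro x hx
    obtain ⟨y, hy, rfl⟩ := Finset.mem_image.mp hx
    exact (hc y hy).1
  · intro L hL hcom hRL w hw
    obtain ⟨V, hV1, hV2⟩ := him L hL
    have h1 : P ≤ V := by
      apply hR'2 V hV1
      intro x hx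
      rw [hV2]
      exact ⟨c x, hRL _ (Finset.mem_image_of_mem _ hx), (hc x hx).2⟩
    have h2 : ab w ∈ V := h1 ((hP2 _).mpr ⟨w, hw, rfl⟩)
    obtain ⟨l, hl, hlw⟩ := (hV2 _).mp h2
    have h3 : l⁻¹ * w ∈ commutator (SS σ) := by
      have h4 : (Abelianization.of l : Abelianization (SS σ)) = Abelianization.of w := hlw
      rw [← Abelianization.ker_of, MonoidHom.mem_ker, map_mul, map_inv, h4, inv_mul_cancel]
    have h5 : l * (l⁻¹ * w) ∈ L := mul_mem hl (hcom h3)
    rwa [mul_inv_cancel_left] at h5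

end group

end Pool.Agent.Lib.MP_e7c36a_al
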