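import Mathlib

set_option autoImplicit false
set_option linter.unusedSimpArgs false

namespace Pool.Agent.Lib.MP_e7c36a_al

section transversal

variable {Y : Type} (H : Subgroup (FreeGroup Y))

/-- the base coset -/
def base : FreeGroup Y ⧸ H := ((1 : FreeGroup Y) : FreeGroup Y ⧸ H)

/-- the generator or its inverse -/
def gen (p : Y × Bool) : FreeGroup Y := FreeGroup.mk [p]

lemma exists_word (x : FreeGroup Y ⧸ H) :
    ∃ n : ℕ, ∃ L : List (Y × Bool), L.length = n ∧ FreeGroup.mk L • base H = x := by
  classical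
  obtain ⟨f, rfl⟩ := QuotientGroup.mk_surjective x
  refine ⟨_, f.toWord, rfl, ?_⟩
  rw [FreeGroup.mk_toWord, base]
  change ((f * 1 : FreeGroup Y) : FreeGroup Y ⧸ H) = f
  rw [mul_one]

open Classical in
/-- distance of a coset from the base coset -/
noncomputable def dist0 (x : FreeGroup Y ⧸ H) : ℕ := Nat.find (exists_word H x)

lemma dist0_le {x : FreeGroup Y ⧸ H} {L : List (Y × Bool)} (h : FreeGroup.mk L • base H = x) :
    dist0 H x ≤ L.length := by
  classical
  exact Nat.find_min' _ ⟨L, rfl, h⟩

lemma dist0_spec (x : FreeGroup Y ⧸ H) :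
    ∃ L : List (Y × Bool), L.length = dist0 H x ∧ FreeGroup.mk L • base H = x := by
  classical
  exact Nat.find_spec (exists_word H x)

lemma dist0_base : dist0 H (base H) = 0 := by
  have := dist0_le H (x := base H) (L := []) (by rw [← FreeGroup.one_eq_mk, one_smul])
  simpa using this

lemma exists_pred (x : FreeGroup Y ⧸ H) (hx : x ≠ base H) :
    ∃ p : Y × Bool, dist0 H ((gen p)⁻¹ • x) + 1 = dist0 H x := by
  obtain ⟨L, hL, hLx⟩ := dist0_spec H x
  rcases L with _ | ⟨p, L⟩
  · exfalso
    apply hx
    rw [← hLx, ← FreeGroup.one_eq_mk, one_smul]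
  · have h1 : (FreeGroup.mk (p :: L) : FreeGroup Y) = gen p * FreeGroup.mk L := by
      rw [gen, FreeGroup.mul_mk]; rfl
    have h2 : FreeGroup.mk L • base H = (gen p)⁻¹ • x := by
      rw [← hLx, h1, mul_smul, inv_smul_smul]
    refine ⟨p, ?_⟩
    have h3 := dist0_le H h2
    have h4 : dist0 H x ≤ dist0 H ((gen p)⁻¹ • x) + 1 := by
      obtain ⟨L', hL', hLx'⟩ := dist0_spec H ((gen p)⁻¹ • x)
      have := dist0_le H (x := x) (L := p :: L') (by
        have h1 : (FreeGroup.mk (p :: L') : FreeGroup Y) = gen p * FreeGroup.mk L' := by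
          rw [gen, FreeGroup.mul_mk]; rfl
        rw [h1, mul_smul, hLx', smul_inv_smul])
      rw [List.length_cons, hL'] at this
      exact this
    rw [List.length_cons] at hL
    omega

open Classical in
/-- the chosen last letter -/
noncomputable def lastLetter (x : FreeGroup Y ⧸ H) : FreeGroup Y :=
  if h : x ≠ base H then gen (exists_pred H x h).choose else 1

/-- auxiliary recursion for the transversal -/
noncomputable def transAux : ℕ → (FreeGroup Y ⧸ H) → FreeGroup Y
  | 0, _ => 1
  | n + 1, x => lastLetter H x * transAux n ((lastLetter H x)⁻¹ • x)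

/-- the Schreier transversal -/
noncomputable def trans (x : FreeGroup Y ⧸ H) : FreeGroup Y := transAux H (dist0 H x) x

lemma trans_base : trans H (base H) = 1 := by
  rw [trans, dist0_base]; rfl

lemma trans_step (x : FreeGroup Y ⧸ H) (hx : x ≠ base H) :
    ∃ p : Y × Bool, dist0 H ((gen p)⁻¹ • x) + 1 = dist0 H x ∧
      trans H x = gen p * trans H ((gen p)⁻¹ • x) := by
  classical
  have h1 : lastLetter H x = gen (exists_pred H x hx).choose := by
    rw [lastLetter, dif_pos hx]
  obtain ⟨p, hp⟩ : ∃ p, p = (exists_pred H x hx).choose := ⟨_, rfl⟩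
  have h2 := (exists_pred H x hx).choose_spec
  rw [← hp] at h1 h2
  refine ⟨p, h2, ?_⟩
  rw [trans, ← h2, transAux, h1]
  rfl

lemma trans_ind {P : (FreeGroup Y ⧸ H) → Prop} (h0 : P (base H))
    (h1 : ∀ x (p : Y × Bool), P ((gen p)⁻¹ • x) →
      trans H x = gen p * trans H ((gen p)⁻¹ • x) → P x) : ∀ x, P x := by
  have key : ∀ n : ℕ, ∀ x, dist0 H x = n → P x := by
    intro n
    induction n with
    | zero =>
      intro x hx
      by_cases hb : x = base H
      · rw [hb]; exact h0
      · obtain ⟨p, hp, -⟩ := trans_step H x hb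
        omega
    | succ n ih =>
      intro x hx
      by_cases hb : x = base H
      · rw [hb]; exact h0
      · obtain ⟨p, hp, hp'⟩ := trans_step H x hb
        exact h1 x p (ih _ (by omega)) hp'
  intro x
  exact key _ x rfl

lemma trans_smul (x : FreeGroup Y ⧸ H) : trans H x • base H = x := by
  induction x using trans_ind H with
  | h0 => rw [trans_base, one_smul]
  | h1 x p ih h => rw [h, mul_smul, ih, smul_inv_smul]

end transversal

section cocycle

variable {Y X K : Type} [MulAction (FreeGroup Y) X] [Group K] (E : X → Y → K)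

/-- the permutation attached to a generator -/
def actGen (y : Y) : Equiv.Perm (X × K) where
  toFun p := (FreeGroup.of y • p.1, E p.1 y * p.2)
  invFun p := ((FreeGroup.of y)⁻¹ • p.1, (E ((FreeGroup.of y)⁻¹ • p.1) y)⁻¹ * p.2)
  left_inv p := by simp
  right_inv p := by simp

/-- the action on the covering -/
def actE : FreeGroup Y →* Equiv.Perm (X × K) := FreeGroup.lift (actGen E)

lemma actE_aux (f : FreeGroup Y) : ∀ (x : X) (k : K),
    actE E f (x, k) = (f • x, (actE E f (x, 1)).2 * k) := by
  induction f using FreeGroup.induction_on with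
  | C1 => intro x k; simp
  | of y => intro x k; simp [actE, actGen]
  | inv_of y h => intro x k; simp [actE, actGen]
  | mul f g hf hg =>
    intro x k
    rw [map_mul, Equiv.Perm.mul_apply, Equiv.Perm.mul_apply, hg x k, hf, hg x 1, hf (g • x)
      ((actE E g (x, 1)).2 * 1), mul_smul, mul_one, mul_assoc]

/-- the cocycle -/
def coc (f : FreeGroup Y) (x : X) : K := (actE E f (x, 1)).2

lemma coc_one (x : X) : coc E (1 : FreeGroup Y) x = 1 := by simp [coc]

lemma coc_of (y : Y) (x : X) : coc E (FreeGroup.of y) x = E x y := by simp [coc, actE, actGen]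

lemma coc_mul (f g : FreeGroup Y) (x : X) :
    coc E (f * g) x = coc E f (g • x) * coc E g x := by
  rw [coc, map_mul, Equiv.Perm.mul_apply, actE_aux E g x 1, actE_aux E f, mul_one]
  rfl

lemma coc_inv (f : FreeGroup Y) (x : X) : coc E f⁻¹ x = (coc E f (f⁻¹ • x))⁻¹ := by
  have := coc_mul E f f⁻¹ x
  rw [mul_inv_cancel, coc_one] at this
  rw [eq_comm, inv_eq_iff_mul_eq_one]
  exact this.symm

end cocycle

section schreier

variable {Y : Type} (H : Subgroup (FreeGroup Y))

/-- the index set of the Schreier basis -/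
def Wd : Type := {p : (FreeGroup Y ⧸ H) × Y //
  trans H (FreeGroup.of p.2 • p.1) ≠ FreeGroup.of p.2 * trans H p.1}

lemma rho_mem (f : FreeGroup Y) (x : FreeGroup Y ⧸ H) :
    (trans H (f • x))⁻¹ * f * trans H x ∈ H := by
  have h1 : ((trans H (f • x))⁻¹ * f * trans H x) • base H = base H := by
    rw [mul_smul, trans_smul, mul_smul, inv_smul_eq_iff, trans_smul]
  have h2 : (((trans H (f • x))⁻¹ * f * trans H x * 1 : FreeGroup Y) : FreeGroup Y ⧸ H) =
    ((1 : FreeGroup Y) : FreeGroup Y ⧸ H) := h1
  rw [mul_one, QuotientGroup.eq, mul_one, inv_mem_iff] at h2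
  exact h2

/-- the Schreier generators -/
noncomputable def rho (f : FreeGroup Y) (x : FreeGroup Y ⧸ H) : H :=
  ⟨(trans H (f • x))⁻¹ * f * trans H x, rho_mem H f x⟩

/-- from the free group on the Schreier generators -/
noncomputable def lam : FreeGroup (Wd H) →* H :=
  FreeGroup.lift (fun w => rho H (FreeGroup.of w.1.2) w.1.1)

open Classical in
/-- edge labels -/
noncomputable def EE (x : FreeGroup Y ⧸ H) (y : Y) : FreeGroup (Wd H) :=
  if h : trans H (FreeGroup.of y • x) ≠ FreeGroup.of y * trans H x then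
    FreeGroup.of (⟨(x, y), h⟩ : Wd H) else 1

lemma lam_coc (f : FreeGroup Y) : ∀ x : FreeGroup Y ⧸ H, lam H (coc (EE H) f x) = rho H f x := by
  classical
  induction f using FreeGroup.induction_on with
  | C1 => intro x; rw [coc_one, map_one]; apply Subtype.ext; simp [rho]
  | of y =>
    intro x
    rw [coc_of, EE]
    split_ifs with h
    · exact FreeGroup.lift_apply_of
    · push Not at h
      rw [map_one]
      apply Subtype.ext
      simp only [rho, h]
      simp
  | inv_of y h =>
    intro x
    rw [coc_inv, map_inv, h]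
    apply Subtype.ext
    simp only [rho, InvMemClass.coe_inv, smul_inv_smul]
    group
  | mul f g hf hg =>
    intro x
    rw [coc_mul, map_mul, hf, hg]
    apply Subtype.ext
    simp only [rho, Subgroup.coe_mul, mul_smul]
    group

lemma coc_trans (x : FreeGroup Y ⧸ H) : coc (EE H) (trans H x) (base H) = 1 := by
  classical
  induction x using trans_ind H with
  | h0 => rw [trans_base, coc_one]
  | h1 x p ih h =>
    rw [h, coc_mul, ih, trans_smul, mul_one]
    obtain ⟨y, b⟩ := p
    cases b with
    | true =>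
      change coc (EE H) (FreeGroup.of y) ((FreeGroup.of y)⁻¹ • x) = 1
      rw [coc_of, EE, dif_neg]
      push Not
      rw [smul_inv_smul]
      exact h
    | false =>
      have hg : gen (y, false) = (FreeGroup.of y)⁻¹ := by
        rw [gen, FreeGroup.of, FreeGroup.inv_mk]; rfl
      rw [hg] at h ⊢
      rw [inv_inv] at h ⊢
      rw [coc_inv, inv_smul_smul, coc_of, EE, dif_neg, inv_one]
      push Not
      rw [h, mul_inv_cancel_left]

/-- from the subgroup to the free group on the Schreier generators -/
noncomputable def kapp : H →* FreeGroup (Wd H) where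
  toFun h := coc (EE H) (h : FreeGroup Y) (base H)
  map_one' := coc_one _ _
  map_mul' f g := by
    have h1 : (g : FreeGroup Y) • base H = base H := by
      change (((g : FreeGroup Y) * 1 : FreeGroup Y) : FreeGroup Y ⧸ H) =
        ((1 : FreeGroup Y) : FreeGroup Y ⧸ H)
      rw [mul_one, QuotientGroup.eq, mul_one, inv_mem_iff]
      exact g.2
    rw [Subgroup.coe_mul, coc_mul, h1]

lemma lam_kapp (h : H) : lam H (kapp H h) = h := by
  have h1 : lam H (kapp H h) = rho H (h : FreeGroup Y) (base H) := lam_coc H h (base H)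
  rw [h1]
  apply Subtype.ext
  have h2 : (h : FreeGroup Y) • base H = base H := by
    change (((h : FreeGroup Y) * 1 : FreeGroup Y) : FreeGroup Y ⧸ H) =
      ((1 : FreeGroup Y) : FreeGroup Y ⧸ H)
    rw [mul_one, QuotientGroup.eq, mul_one, inv_mem_iff]
    exact h.2
  simp [rho, h2, trans_base]

lemma kapp_lam (w : FreeGroup (Wd H)) : kapp H (lam H w) = w := by
  have : (kapp H).comp (lam H) = MonoidHom.id _ := by
    ext1 w
    obtain ⟨⟨x, y⟩, hw⟩ := w
    have h1 : lam H (FreeGroup.of ⟨(x, y), hw⟩) = rho H (FreeGroup.of y) x :=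
      FreeGroup.lift_apply_of
    have h2 : kapp H (rho H (FreeGroup.of y) x) =
      coc (EE H) ((trans H (FreeGroup.of y • x))⁻¹ * FreeGroup.of y * trans H x) (base H) := rfl
    have h3 : (trans H (FreeGroup.of y • x))⁻¹ • FreeGroup.of y • x = base H := by
      rw [inv_smul_eq_iff, trans_smul]
    rw [MonoidHom.comp_apply, h1, h2, coc_mul, coc_trans, mul_one, trans_smul, coc_mul, coc_of,
      coc_inv, h3, coc_trans, inv_one, one_mul, EE, dif_pos hw]
    rfl
  exact DFunLike.congr_fun this w

/-- the Schreier isomorphism -/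
noncomputable def schEquiv : FreeGroup (Wd H) ≃* H where
  toFun := lam H
  invFun := kapp H
  left_inv := kapp_lam H
  right_inv := lam_kapp H
  map_mul' := map_mul _

/-- A subgroup of a free group containing a part of the basis has a basis extending this part. -/
theorem schreier (Y₀ : Set Y) (hY₀ : ∀ y ∈ Y₀, FreeGroup.of y ∈ H) :
    ∃ (Z : Type) (e : FreeGroup (Y₀ ⊕ Z) ≃* H),
      ∀ y : Y₀, (e (FreeGroup.of (Sum.inl y)) : FreeGroup Y) = FreeGroup.of (y : Y) := by
  classical
  have hb : ∀ y ∈ Y₀, FreeGroup.of y • base H = base H := by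
    intro y hy
    change ((FreeGroup.of y * 1 : FreeGroup Y) : FreeGroup Y ⧸ H) =
      ((1 : FreeGroup Y) : FreeGroup Y ⧸ H)
    rw [mul_one, QuotientGroup.eq, mul_one, inv_mem_iff]
    exact hY₀ y hy
  let i : Y₀ → Wd H := fun y => ⟨(base H, y.1), by
    simp only
    rw [hb y.1 y.2, trans_base, mul_one]
    exact (FreeGroup.of_ne_one _).symm⟩
  have hi : Function.Injective i := by
    intro y y' h
    have := congrArg (fun w : Wd H => w.1.2) h
    exact Subtype.ext this
  let Z := {w : Wd H // w ∉ Set.range i}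
  let ε : Y₀ ⊕ Z ≃ Wd H :=
    (Equiv.sumCongr (Equiv.ofInjective i hi) (Equiv.refl _)).trans (Equiv.Set.sumCompl (Set.range i))
  refine ⟨Z, (FreeGroup.freeGroupCongr ε).trans (schEquiv H), ?_⟩
  intro y
  have h1 : (FreeGroup.freeGroupCongr ε) (FreeGroup.of (Sum.inl y)) = FreeGroup.of (i y) := by
    rw [FreeGroup.freeGroupCongr_apply, FreeGroup.map.of]
    rfl
  rw [MulEquiv.trans_apply, h1]
  have h2 : schEquiv H (FreeGroup.of (i y)) = rho H (FreeGroup.of y.1) (base H) :=
    FreeGroup.lift_apply_of
  rw [h2]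
  simp only [rho]
  rw [hb y.1 y.2, trans_base]
  simp

end schreier

end Pool.Agent.Lib.MP_e7c36a_al
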