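import Pool.Agent.Lib.MP_e7c36a_al.Embed

set_option autoImplicit false
set_option linter.unusedSimpArgs false

namespace Pool.Agent.Lib.MP_e7c36a_al

section target

variable {α γ : Type} (β : FreeGroup (α ⊕ γ) ≃* FreeGroup (α ⊕ γ))

/-- the extra letter -/
def xx (α γ : Type) : KK α γ := FreeGroup.of (Sum.inr ())

/-- `β * id` -/
def betaStar : KK α γ →* KK α γ :=
  FreeGroup.lift (Sum.elim (fun y => FreeGroup.map Sum.inl (β (FreeGroup.of y))) (fun _ => xx α γ))

lemma betaStar_map_inl (h : FreeGroup (α ⊕ γ)) :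
    betaStar β (FreeGroup.map Sum.inl h) = FreeGroup.map Sum.inl (β h) := by
  have : (betaStar β).comp (FreeGroup.map Sum.inl) =
      (FreeGroup.map Sum.inl).comp β.toMonoidHom := by
    ext a
    simp [betaStar]
  exact DFunLike.congr_fun this h

lemma betaStar_xx : betaStar β (xx α γ) = xx α γ := by simp [betaStar, xx]

lemma betaStar_symm (w : KK α γ) : betaStar β.symm (betaStar β w) = w := by
  have : (betaStar β.symm).comp (betaStar β) = MonoidHom.id _ := by
    ext a
    rcases a with y | ⟨⟩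
    · simp only [MonoidHom.comp_apply, MonoidHom.id_apply]
      rw [← FreeGroup.map.of (f := Sum.inl), betaStar_map_inl, betaStar_map_inl,
        MulEquiv.symm_apply_apply]
    · change betaStar β.symm (betaStar β (xx α γ)) = xx α γ
      rw [betaStar_xx, betaStar_xx]
  exact DFunLike.congr_fun this w

/-- `β * id` as an automorphism -/
def betaEquiv : KK α γ ≃* KK α γ where
  toFun := betaStar β
  invFun := betaStar β.symm
  left_inv := betaStar_symm β
  right_inv := by
    have := betaStar_symm β.symm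
    rwa [MulEquiv.symm_symm] at this
  map_mul' := map_mul _

/-- conjugating the letters from `γ` by `x ^ k` -/
def kap (α γ : Type) (k : ℤ) : KK α γ →* KK α γ :=
  FreeGroup.lift (Sum.elim (Sum.elim (fun a => FreeGroup.of (Sum.inl (Sum.inl a)))
    (fun c => xx α γ ^ k * FreeGroup.of (Sum.inl (Sum.inr c)) * (xx α γ ^ k)⁻¹)) (fun _ => xx α γ))

lemma kap_xx (k : ℤ) : kap α γ k (xx α γ) = xx α γ := by simp [kap, xx]

lemma kap_kap (k l : ℤ) (h : k + l = 0) (w : KK α γ) : kap α γ k (kap α γ l w) = w := by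
  have : (kap α γ k).comp (kap α γ l) = MonoidHom.id _ := by
    ext a
    rcases a with (a | c) | ⟨⟩
    · simp [kap]
    · have h1 : kap α γ l (FreeGroup.of (Sum.inl (Sum.inr c))) =
        xx α γ ^ l * FreeGroup.of (Sum.inl (Sum.inr c)) * (xx α γ ^ l)⁻¹ := by simp [kap]
      have h2 : kap α γ k (FreeGroup.of (Sum.inl (Sum.inr c))) =
        xx α γ ^ k * FreeGroup.of (Sum.inl (Sum.inr c)) * (xx α γ ^ k)⁻¹ := by simp [kap]
      simp only [MonoidHom.comp_apply, MonoidHom.id_apply]
      rw [h1, map_mul, map_mul, map_inv, map_zpow, kap_xx, h2]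
      have h3 : l = -k := by omega
      subst h3
      group
    · change kap α γ k (kap α γ l (xx α γ)) = xx α γ
      rw [kap_xx, kap_xx]
  exact DFunLike.congr_fun this w

/-- `kap 1` as an automorphism -/
def kapEquiv (α γ : Type) : KK α γ ≃* KK α γ where
  toFun := kap α γ 1
  invFun := kap α γ (-1)
  left_inv := kap_kap (-1) 1 (by norm_num)
  right_inv := kap_kap 1 (-1) (by norm_num)
  map_mul' := map_mul _

/-- The automorphism of the finite rank target. -/
def Psi : KK α γ ≃* KK α γ := (kapEquiv α γ).trans (betaEquiv β)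

lemma Psi_xx : Psi β (xx α γ) = xx α γ := by
  change betaStar β (kap α γ 1 (xx α γ)) = xx α γ
  rw [kap_xx, betaStar_xx]

lemma Psi_inl (a : α) : Psi β (FreeGroup.of (Sum.inl (Sum.inl a))) =
    FreeGroup.map Sum.inl (β (FreeGroup.of (Sum.inl a))) := by
  change betaStar β (kap α γ 1 (FreeGroup.of (Sum.inl (Sum.inl a)))) = _
  simp [kap, betaStar]

lemma Psi_inr (c : γ) : Psi β (FreeGroup.of (Sum.inl (Sum.inr c))) =
    xx α γ * FreeGroup.map Sum.inl (β (FreeGroup.of (Sum.inr c))) * (xx α γ)⁻¹ := by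
  change betaStar β (kap α γ 1 (FreeGroup.of (Sum.inl (Sum.inr c)))) = _
  have h1 : kap α γ 1 (FreeGroup.of (Sum.inl (Sum.inr c))) =
    xx α γ * FreeGroup.of (Sum.inl (Sum.inr c)) * (xx α γ)⁻¹ := by simp [kap]
  rw [h1, map_mul, map_mul, map_inv, betaStar_xx]
  simp [betaStar]

/-- the map `(k, y) ↦ x ^ k y x ^ (-k)` -/
def jj (α γ : Type) : PP α γ →* KK α γ :=
  FreeGroup.lift (fun p => xx α γ ^ p.1 * FreeGroup.of (Sum.inl p.2) * (xx α γ ^ p.1)⁻¹)

lemma jj_cp (k : ℕ) (h : FreeGroup (α ⊕ γ)) :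
    jj α γ (cp k h) = xx α γ ^ k * FreeGroup.map Sum.inl h * (xx α γ ^ k)⁻¹ := by
  have : (jj α γ).comp (cp k) =
      (MulAut.conj (xx α γ ^ k)).toMonoidHom.comp (FreeGroup.map Sum.inl) := by
    ext a
    simp [jj, cp, -map_pow]
  exact DFunLike.congr_fun this h

lemma jj_Theta (w : PP α γ) : jj α γ (Theta β w) = Psi β (jj α γ w) := by
  have : (jj α γ).comp (Theta β) = (Psi β).toMonoidHom.comp (jj α γ) := by
    ext p
    obtain ⟨k, a | c⟩ := p
    · have h1 : Theta β (FreeGroup.of (k, Sum.inl a)) = cp k (β (FreeGroup.of (Sum.inl a))) := by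
        simp [Theta]
      have h2 : jj α γ (FreeGroup.of (k, Sum.inl a)) =
          xx α γ ^ k * FreeGroup.of (Sum.inl (Sum.inl a)) * (xx α γ ^ k)⁻¹ := by simp [jj]
      change jj α γ (Theta β (FreeGroup.of (k, Sum.inl a))) =
        Psi β (jj α γ (FreeGroup.of (k, Sum.inl a)))
      rw [h1, h2, jj_cp, map_mul, map_mul, map_inv, map_pow, Psi_xx, Psi_inl]
    · have h1 : Theta β (FreeGroup.of (k, Sum.inr c)) =
          cp (k + 1) (β (FreeGroup.of (Sum.inr c))) := by
        simp [Theta]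
      have h2 : jj α γ (FreeGroup.of (k, Sum.inr c)) =
          xx α γ ^ k * FreeGroup.of (Sum.inl (Sum.inr c)) * (xx α γ ^ k)⁻¹ := by simp [jj]
      change jj α γ (Theta β (FreeGroup.of (k, Sum.inr c))) =
        Psi β (jj α γ (FreeGroup.of (k, Sum.inr c)))
      rw [h1, h2, jj_cp, map_mul, map_mul, map_inv, map_pow, Psi_xx, Psi_inr, pow_succ]
      group
  exact DFunLike.congr_fun this w

/-- the shift automorphism of the free group on `ℤ × Y` -/
def shiftZ (Y : Type) : FreeGroup (ℤ × Y) ≃* FreeGroup (ℤ × Y) :=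
  FreeGroup.freeGroupCongr (Equiv.prodCongr (Equiv.addRight 1) (Equiv.refl Y))

lemma shiftZ_of (Y : Type) (k : ℤ) (y : Y) :
    shiftZ Y (FreeGroup.of (k, y)) = FreeGroup.of (k + 1, y) := by
  simp [shiftZ]

/-- the action of `ℤ` by shifts -/
def shiftHom (Y : Type) : Multiplicative ℤ →* MulAut (FreeGroup (ℤ × Y)) :=
  zpowersHom _ (shiftZ Y)

/-- the homomorphism from the target to the semidirect product with `ℤ` -/
def rhoK (α γ : Type) : KK α γ →* FreeGroup (ℤ × (α ⊕ γ)) ⋊[shiftHom (α ⊕ γ)] Multiplicative ℤ :=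
  FreeGroup.lift (Sum.elim (fun y => SemidirectProduct.inl (FreeGroup.of (0, y)))
    (fun _ => SemidirectProduct.inr (Multiplicative.ofAdd 1)))

lemma shift_conj (α γ : Type) (k : ℕ) (y : α ⊕ γ) :
    ((SemidirectProduct.inr (Multiplicative.ofAdd (1 : ℤ))) ^ k *
      SemidirectProduct.inl (FreeGroup.of ((0 : ℤ), y)) *
      ((SemidirectProduct.inr (Multiplicative.ofAdd (1 : ℤ))) ^ k)⁻¹ :
      FreeGroup (ℤ × (α ⊕ γ)) ⋊[shiftHom (α ⊕ γ)] Multiplicative ℤ) =
      SemidirectProduct.inl (FreeGroup.of ((k : ℤ), y)) := by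
  induction k with
  | zero => simp
  | succ k ih =>
    have h1 : ((SemidirectProduct.inr (Multiplicative.ofAdd (1 : ℤ))) *
      SemidirectProduct.inl (FreeGroup.of ((k : ℤ), y)) *
      ((SemidirectProduct.inr (Multiplicative.ofAdd (1 : ℤ))))⁻¹ :
      FreeGroup (ℤ × (α ⊕ γ)) ⋊[shiftHom (α ⊕ γ)] Multiplicative ℤ) =
      SemidirectProduct.inl (FreeGroup.of ((k : ℤ) + 1, y)) := by
      rw [← shiftZ_of, ← map_inv SemidirectProduct.inr, ← SemidirectProduct.inl_aut]
      congr 1
    push_cast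
    rw [← h1, ← ih, pow_succ']
    group

lemma rhoK_jj (w : PP α γ) : rhoK α γ (jj α γ w) =
    SemidirectProduct.inl (FreeGroup.map (fun p : ℕ × (α ⊕ γ) => ((p.1 : ℤ), p.2)) w) := by
  have : (rhoK α γ).comp (jj α γ) = SemidirectProduct.inl.comp
      (FreeGroup.map (fun p : ℕ × (α ⊕ γ) => ((p.1 : ℤ), p.2))) := by
    ext1 p
    obtain ⟨k, y⟩ := p
    have h2 : jj α γ (FreeGroup.of (k, y)) =
          xx α γ ^ k * FreeGroup.of (Sum.inl y) * (xx α γ ^ k)⁻¹ := by simp [jj]
    have h3 : rhoK α γ (xx α γ) = SemidirectProduct.inr (Multiplicative.ofAdd 1) := by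
      simp [rhoK, xx]
    have h4 : rhoK α γ (FreeGroup.of (Sum.inl y)) =
      SemidirectProduct.inl (FreeGroup.of (0, y)) := by simp [rhoK]
    simp only [MonoidHom.comp_apply]
    rw [h2, map_mul, map_mul, map_inv, map_pow, h3, h4, shift_conj, FreeGroup.map.of]
  exact DFunLike.congr_fun this w

lemma jj_injective : Function.Injective (jj α γ) := by
  have h : Function.Injective (fun w => rhoK α γ (jj α γ w)) := by
    intro w w' hw
    simp only [rhoK_jj] at hw
    have h1 := SemidirectProduct.inl_injective hw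
    apply FreeGroup.map_injective _ h1
    rintro ⟨k, y⟩ ⟨k', y'⟩ h
    simpa using h
  intro w w' hw
  exact h (by simp only [hw])

/-- The embedding of the model in the finite rank target. -/
def vv : FF α γ →* KK α γ := (jj α γ).comp (vP β)

lemma vv_injective : Function.Injective (vv β) := jj_injective.comp (vP_injective β)

lemma vv_thetaHat (w : FF α γ) : vv β (thetaHat β w) = Psi β (vv β w) := by
  simp only [vv, MonoidHom.comp_apply]
  rw [vP_thetaHat, jj_Theta]

end target

end Pool.Agent.Lib.MP_e7c36a_al
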