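import Pool.Agent.Lib.MP_e7c36a_al.Hopf
import Pool.Agent.Lib.MP_e7c36a_al.Target
import Pool.Agent.Lib.MP_e7c36a_al.Schreier
import Pool.Agent.Lib.MP_e7c36a_al.Noeth

set_option autoImplicit false
set_option linter.unusedSimpArgs false

namespace Pool.Agent.Lib.MP_e7c36a_al

section ppi

variable {P P' σ : Type} [Group P] [Group P']

/-- the evaluation at the iterates -/
def ppi (T : P →* P) (s : σ → P) : SS σ →* P := FreeGroup.lift (fun p => T^[p.1] (s p.2))

lemma ppi_of (T : P →* P) (s : σ → P) (i : ℕ) (j : σ) :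
    ppi T s (FreeGroup.of (i, j)) = T^[i] (s j) := by simp [ppi]

lemma ppi_sh (T : P →* P) (s : σ → P) (w : SS σ) : ppi T s (sh σ w) = T (ppi T s w) := by
  have : (ppi T s).comp (sh σ) = T.comp (ppi T s) := by
    ext1 p
    simp only [MonoidHom.comp_apply, sh, FreeGroup.map.of]
    rw [ppi_of, ppi_of, Function.iterate_succ_apply']
  exact DFunLike.congr_fun this w

lemma ppi_nat (T : P →* P) (s : σ → P) (T' : P' →* P') (s' : σ → P') (u : P →* P')
    (hT : ∀ x, u (T x) = T' (u x)) (hs : ∀ j, u (s j) = s' j) (w : SS σ) :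
    u (ppi T s w) = ppi T' s' w := by
  have hi : ∀ i : ℕ, ∀ j, u (T^[i] (s j)) = T'^[i] (s' j) := by
    intro i
    induction i with
    | zero => exact hs
    | succ i ih =>
      intro j
      rw [Function.iterate_succ_apply', Function.iterate_succ_apply', hT, ih]
  have : u.comp (ppi T s) = ppi T' s' := by
    ext1 p
    obtain ⟨i, j⟩ := p
    rw [MonoidHom.comp_apply, ppi_of, ppi_of, hi]
  exact DFunLike.congr_fun this w

end ppi

section lev

variable {σ : Type}

/-- words using levels up to `k` -/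
def lev (σ : Type) (k : ℕ) : Subgroup (SS σ) :=
  Subgroup.closure {x | ∃ i ≤ k, ∃ j, x = FreeGroup.of (i, j)}

lemma lev_mono {k l : ℕ} (h : k ≤ l) : lev σ k ≤ lev σ l := by
  apply Subgroup.closure_mono
  rintro x ⟨i, hi, j, rfl⟩
  exact ⟨i, hi.trans h, j, rfl⟩

lemma exists_lev (w : SS σ) : ∃ k, w ∈ lev σ k := by
  induction w using FreeGroup.induction_on with
  | C1 => exact ⟨0, one_mem _⟩
  | of y => exact ⟨y.1, Subgroup.subset_closure ⟨y.1, le_rfl, y.2, rfl⟩⟩
  | inv_of y h => obtain ⟨k, hk⟩ := h; exact ⟨k, inv_mem hk⟩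
  | mul x y hx hy =>
    obtain ⟨k, hk⟩ := hx
    obtain ⟨l, hl⟩ := hy
    exact ⟨max k l, mul_mem (lev_mono (le_max_left _ _) hk) (lev_mono (le_max_right _ _) hl)⟩

lemma exists_lev_finset (R : Finset (SS σ)) : ∃ k, ∀ r ∈ R, r ∈ lev σ k := by
  choose k hk using exists_lev (σ := σ)
  exact ⟨R.sup k, fun r hr => lev_mono (Finset.le_sup hr) (hk r)⟩

end lev

section supp

variable {Y : Type}

/-- the subgroup generated by a set of letters -/
def rg (T : Set Y) : Subgroup (FreeGroup Y) := (FreeGroup.map (Subtype.val : T → Y)).range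

lemma rg_mono {T T' : Set Y} (h : T ⊆ T') : rg T ≤ rg T' := by
  rintro x ⟨y, rfl⟩
  refine ⟨FreeGroup.map (fun t : T => (⟨t.1, h t.2⟩ : T')) y, ?_⟩
  rw [FreeGroup.map.comp]
  rfl

lemma exists_rg (w : FreeGroup Y) : ∃ T : Finset Y, w ∈ rg (T : Set Y) := by
  obtain ⟨T, hT⟩ := exists_finset_range w
  exact ⟨T, hT⟩

end supp

section core

variable {Y σ : Type}

lemma thetaHat_map {α γ : Type} (β : FreeGroup (α ⊕ γ) ≃* FreeGroup (α ⊕ γ)) (h : FreeGroup α) :
    thetaHat β (FreeGroup.map Sum.inl (FreeGroup.map Sum.inl h)) =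
      FreeGroup.map Sum.inl (β (FreeGroup.map Sum.inl h)) := by
  have : (thetaHat β).comp ((FreeGroup.map Sum.inl).comp (FreeGroup.map Sum.inl)) =
      (FreeGroup.map Sum.inl).comp (β.toMonoidHom.comp (FreeGroup.map Sum.inl)) := by
    ext1 a
    simp [thetaHat]
  exact DFunLike.congr_fun this h

/-- The abstract core: given `β` inducing `θ` on the first block, the evaluation map factors
through the model. -/
theorem core_aux [Finite σ] (θ : FreeGroup Y ≃* FreeGroup Y) (s : σ → FreeGroup Y)
    (R : Finset (SS σ)) (hR : ∀ x ∈ R, ppi θ.toMonoidHom s x = 1)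
    (hR2 : ∀ L : Subgroup (SS σ), (∀ w ∈ L, sh σ w ∈ L) → commutator (SS σ) ≤ L →
        (∀ x ∈ R, x ∈ L) → (ppi θ.toMonoidHom s).ker ≤ L)
    (k : ℕ) (hk : ∀ r ∈ R, r ∈ lev σ k)
    {α γ : Type} (β : FreeGroup (α ⊕ γ) ≃* FreeGroup (α ⊕ γ))
    (i : α ⊕ γ → Y) (hi : Function.Injective i)
    (hβ : ∀ a : α, FreeGroup.map i (β (FreeGroup.of (Sum.inl a))) = θ (FreeGroup.of (i (Sum.inl a))))
    (hs : ∀ l ≤ k, ∀ j, ∃ h : FreeGroup α,
      FreeGroup.map (fun a => i (Sum.inl a)) h = (θ.toMonoidHom)^[l] (s j)) :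
    ∃ ε : SS σ →* KK α γ, (∀ w, ε w = 1 ↔ ppi θ.toMonoidHom s w = 1) ∧
      ∀ w, ε (sh σ w) = Psi β (ε w) := by
  classical
  set T : FreeGroup Y →* FreeGroup Y := θ.toMonoidHom with hT
  have hii : Function.Injective (FreeGroup.map i) := FreeGroup.map_injective hi
  let u : FF α γ →* FreeGroup Y := FreeGroup.lift (Sum.elim (fun y => FreeGroup.of (i y))
    (fun p => T^[p.1 + 1] (FreeGroup.of (i (Sum.inr p.2)))))
  have hu_map : ∀ h : FreeGroup (α ⊕ γ), u (FreeGroup.map Sum.inl h) = FreeGroup.map i h := by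
    intro h
    have : u.comp (FreeGroup.map Sum.inl) = FreeGroup.map i := by
      ext1 a
      simp [u]
    exact DFunLike.congr_fun this h
  have hu : ∀ w, u (thetaHat β w) = T (u w) := by
    intro w
    have : u.comp (thetaHat β) = T.comp u := by
      ext1 a
      rcases a with (a | c) | ⟨l, c⟩
      · have h1 : thetaHat β (FreeGroup.of (Sum.inl (Sum.inl a))) =
            FreeGroup.map Sum.inl (β (FreeGroup.of (Sum.inl a))) := by simp [thetaHat]
        have h2 : u (FreeGroup.of (Sum.inl (Sum.inl a))) = FreeGroup.of (i (Sum.inl a)) := by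
          simp [u]
        rw [MonoidHom.comp_apply, MonoidHom.comp_apply, h1, h2, hu_map, hβ]
        rfl
      · have h1 : thetaHat β (FreeGroup.of (Sum.inl (Sum.inr c))) =
            FreeGroup.of (Sum.inr (0, c)) := by simp [thetaHat]
        have h2 : u (FreeGroup.of (Sum.inl (Sum.inr c))) = FreeGroup.of (i (Sum.inr c)) := by
          simp [u]
        have h3 : u (FreeGroup.of (Sum.inr (0, c))) = T (FreeGroup.of (i (Sum.inr c))) := by
          simp [u]
        rw [MonoidHom.comp_apply, MonoidHom.comp_apply, h1, h2, h3]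
      · have h1 : thetaHat β (FreeGroup.of (Sum.inr (l, c))) =
            FreeGroup.of (Sum.inr (l + 1, c)) := by simp [thetaHat]
        have h2 : ∀ l, u (FreeGroup.of (Sum.inr (l, c))) =
            T^[l + 1] (FreeGroup.of (i (Sum.inr c))) := by
          intro l
          simp only [u, FreeGroup.lift_apply_of, Sum.elim_inr]
        rw [MonoidHom.comp_apply, MonoidHom.comp_apply, h1, h2, h2,
          Function.iterate_succ_apply' _ (l + 1)]
    exact DFunLike.congr_fun this w
  choose a ha using hs 0 (Nat.zero_le k)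
  have hia : ∀ h : FreeGroup α, FreeGroup.map (fun a => i (Sum.inl a)) h =
      FreeGroup.map i (FreeGroup.map Sum.inl h) := by
    intro h
    rw [FreeGroup.map.comp]
    rfl
  let s' : σ → FF α γ := fun j => FreeGroup.map Sum.inl (FreeGroup.map Sum.inl (a j))
  have hus : ∀ j, u (s' j) = s j := by
    intro j
    rw [hu_map, ← hia, ha]
    rfl
  have hupi : ∀ w, u (ppi (thetaHat β) s' w) = ppi T s w := ppi_nat _ _ _ _ u hu hus
  have hlev : ∀ l ≤ k, ∀ j, ∃ h : FreeGroup α,
      (thetaHat β)^[l] (s' j) = FreeGroup.map Sum.inl (FreeGroup.map Sum.inl h) := by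
    intro l
    induction l with
    | zero => intro _ j; exact ⟨a j, rfl⟩
    | succ l ih =>
      intro hl j
      obtain ⟨h, hh⟩ := ih (by omega) j
      obtain ⟨h', hh'⟩ := hs (l + 1) hl j
      refine ⟨h', ?_⟩
      rw [Function.iterate_succ_apply', hh, thetaHat_map]
      congr 1
      apply hii
      have h1 := hu (FreeGroup.map Sum.inl (FreeGroup.map Sum.inl h))
      rw [thetaHat_map, hu_map] at h1
      rw [h1, ← hia h', hh', ← hh, ← ppi_of (thetaHat β) s' l j, hupi, ppi_of,
        Function.iterate_succ_apply']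
  have hRker : ∀ r ∈ R, ppi (thetaHat β) s' r = 1 := by
    intro r hr
    have h1 : lev σ k ≤ ((FreeGroup.map Sum.inl : FreeGroup (α ⊕ γ) →* FF α γ).range).comap
        (ppi (thetaHat β) s') := by
      rw [lev, Subgroup.closure_le]
      rintro x ⟨l, hl, j, rfl⟩
      obtain ⟨h, hh⟩ := hlev l hl j
      refine ⟨FreeGroup.map Sum.inl h, ?_⟩
      rw [ppi_of, hh]
    obtain ⟨h, hh⟩ := h1 (hk r hr)
    have h2 := hupi r
    rw [← hh, hu_map, hR r hr] at h2
    have h3 : h = 1 := hii (by rw [h2, map_one])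
    rw [← hh, h3, map_one]
  -- the comparison of the images
  let ph : SS σ →* (ppi (thetaHat β) s').range := (ppi (thetaHat β) s').rangeRestrict
  let qh : SS σ →* (ppi T s).range := (ppi T s).rangeRestrict
  have hph : Function.Surjective ph := MonoidHom.rangeRestrict_surjective _
  have hqh : Function.Surjective qh := MonoidHom.rangeRestrict_surjective _
  let q : (ppi (thetaHat β) s').range →* (ppi T s).range :=
    (u.comp (ppi (thetaHat β) s').range.subtype).codRestrict (ppi T s).range (by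
      rintro ⟨x, w, rfl⟩
      exact ⟨w, (hupi w).symm⟩)
  have hq : ∀ w, q (ph w) = qh w := fun w => Subtype.ext (hupi w)
  have hker : (ppi T s).ker ≤ (commutator (ppi (thetaHat β) s').range).comap ph := by
    apply hR2
    · intro w hw
      rw [Subgroup.mem_comap] at hw ⊢
      obtain ⟨c, hc, hcw⟩ := exists_preimage_commutator ph hph hw
      have h1 : ph (sh σ c) = ph (sh σ w) := by
        apply Subtype.ext
        change ppi (thetaHat β) s' (sh σ c) = ppi (thetaHat β) s' (sh σ w)
        rw [ppi_sh, ppi_sh]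
        congr 1
        exact congrArg Subtype.val hcw
      rw [← h1]
      exact map_mem_commutator ph (map_mem_commutator (sh σ) hc)
    · intro w hw
      exact map_mem_commutator ph hw
    · intro r hr
      rw [Subgroup.mem_comap]
      have : ph r = 1 := Subtype.ext (hRker r hr)
      rw [this]
      exact one_mem _
  have hqinj : Function.Injective q := by
    apply injective_of_commutator
    intro z hz
    obtain ⟨w, rfl⟩ := hph z
    rw [hq] at hz
    obtain ⟨c, hc, hcw⟩ := exists_preimage_commutator qh hqh hz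
    have h1 : w * c⁻¹ ∈ (ppi T s).ker := by
      have h2 : ppi T s c = ppi T s w := congrArg Subtype.val hcw
      rw [MonoidHom.mem_ker, map_mul, map_inv, h2, mul_inv_cancel]
    have h3 := hker h1
    rw [Subgroup.mem_comap, map_mul] at h3
    have h4 : ph c ∈ commutator (ppi (thetaHat β) s').range := map_mem_commutator ph hc
    have h5 := mul_mem h3 h4
    rwa [map_inv, inv_mul_cancel_right] at h5
  refine ⟨(vv β).comp (ppi (thetaHat β) s'), ?_, ?_⟩
  · intro w
    rw [MonoidHom.comp_apply]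
    constructor
    · intro h
      have h1 : ppi (thetaHat β) s' w = 1 := vv_injective β (by rw [h, map_one])
      rw [← hupi, h1, map_one]
    · intro h
      have h1 : ph w = 1 := by
        apply hqinj
        rw [hq, map_one]
        exact Subtype.ext h
      have h2 : ppi (thetaHat β) s' w = 1 := congrArg Subtype.val h1
      rw [h2, map_one]
  · intro w
    rw [MonoidHom.comp_apply, MonoidHom.comp_apply, ppi_sh, vv_thetaHat]

/-- The core theorem. -/
theorem core [Finite σ] (θ : FreeGroup Y ≃* FreeGroup Y) (s : σ → FreeGroup Y) :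
    ∃ (α γ : Type) (_ : Finite α) (_ : Finite γ)
      (β : FreeGroup (α ⊕ γ) ≃* FreeGroup (α ⊕ γ)) (ε : SS σ →* KK α γ),
      (∀ w, ε w = 1 ↔ ppi θ.toMonoidHom s w = 1) ∧ ∀ w, ε (sh σ w) = Psi β (ε w) := by
  classical
  have := Fintype.ofFinite σ
  set T : FreeGroup Y →* FreeGroup Y := θ.toMonoidHom with hT
  obtain ⟨R, hR1, hR2⟩ := noeth_group (ppi T s).ker (by
    intro w hw
    rw [MonoidHom.mem_ker] at hw ⊢
    rw [ppi_sh, hw, map_one])
  obtain ⟨k, hk⟩ := exists_lev_finset R
  -- the first finite set of letters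
  choose S hS using exists_rg (Y := Y)
  let X₀ : Finset Y := (Finset.range (k + 1) ×ˢ (Finset.univ : Finset σ)).biUnion
    (fun p => S (T^[p.1] (s p.2)))
  have hX₀ : ∀ l ≤ k, ∀ j, T^[l] (s j) ∈ rg (X₀ : Set Y) := by
    intro l hl j
    refine rg_mono ?_ (hS (T^[l] (s j)))
    intro y hy
    rw [Finset.mem_coe, Finset.mem_biUnion]
    exact ⟨(l, j), by simp; omega, hy⟩
  let X₁ : Finset Y := X₀ ∪ X₀.biUnion (fun y => S (T (FreeGroup.of y)))
  have hX₁ : ∀ y ∈ X₀, T (FreeGroup.of y) ∈ rg (X₁ : Set Y) := by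
    intro y hy
    refine rg_mono ?_ (hS (T (FreeGroup.of y)))
    intro z hz
    exact Finset.mem_union_right _ (Finset.mem_biUnion.mpr ⟨y, hy, hz⟩)
  let α : Type := ↥(X₀ : Set Y)
  let γ : Type := ↥((X₁ \ X₀ : Finset Y) : Set Y)
  have hα : Finite α := (X₀ : Finset Y).finite_toSet
  have hγ : Finite γ := (X₁ \ X₀ : Finset Y).finite_toSet
  let i : α ⊕ γ → Y := Sum.elim Subtype.val Subtype.val
  have hi : Function.Injective i := by
    rintro (a | a) (b | b) h
    · exact congrArg Sum.inl (Subtype.ext h)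
    · exfalso
      have h1 : (a : Y) = (b : Y) := h
      have h2 := b.2
      rw [Finset.mem_coe, Finset.mem_sdiff] at h2
      apply h2.2
      rw [← h1]
      exact a.2
    · exfalso
      have h1 : (a : Y) = (b : Y) := h
      have h2 := a.2
      rw [Finset.mem_coe, Finset.mem_sdiff] at h2
      apply h2.2
      rw [h1]
      exact b.2
    · exact congrArg Sum.inr (Subtype.ext h)
  have hii : Function.Injective (FreeGroup.map i) := FreeGroup.map_injective hi
  let H : Subgroup (FreeGroup Y) := (FreeGroup.map i).range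
  have hrgH : rg (X₁ : Set Y) ≤ H := by
    rintro x ⟨w, rfl⟩
    induction w using FreeGroup.induction_on with
    | C1 => rw [map_one]; exact one_mem _
    | of y =>
      obtain ⟨y, hy⟩ := y
      by_cases h : y ∈ X₀
      · exact ⟨FreeGroup.of (Sum.inl ⟨y, h⟩), by simp [i]⟩
      · have h' : y ∈ ((X₁ \ X₀ : Finset Y) : Set Y) := by
          rw [Finset.mem_coe, Finset.mem_sdiff]
          exact ⟨hy, h⟩
        exact ⟨FreeGroup.of (Sum.inr ⟨y, h'⟩), by simp [i]⟩
    | inv_of y h => rw [map_inv]; exact inv_mem h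
    | mul x y hx hy => rw [map_mul]; exact mul_mem hx hy
  obtain ⟨Z, e, he⟩ := schreier (H.comap T) (X₀ : Set Y) (by
    intro y hy
    exact hrgH (hX₁ y hy))
  -- the isomorphism with the standard free group
  let iH : FreeGroup (α ⊕ γ) ≃* H := MonoidHom.ofInjective hii
  let cm : (H.comap T) ≃* H := 
    { toFun := fun x => ⟨T x.1, x.2⟩
      invFun := fun x => ⟨θ.symm x.1, by
        change θ (θ.symm x.1) ∈ H
        rw [MulEquiv.apply_symm_apply]; exact x.2⟩
      left_inv := fun x => Subtype.ext (θ.symm_apply_apply x.1)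
      right_inv := fun x => Subtype.ext (θ.apply_symm_apply x.1)
      map_mul' := fun x y => Subtype.ext (map_mul T x.1 y.1) }
  let E₁ : FreeGroup (α ⊕ Z) ≃* FreeGroup (α ⊕ γ) := (e.trans cm).trans iH.symm
  have hE₁ : ∀ w, FreeGroup.map i (E₁ w) = T (e w : FreeGroup Y) := by
    intro w
    have h1 : iH (E₁ w) = cm (e w) := by
      simp [E₁]
    exact congrArg Subtype.val h1
  have hZ : α ⊕ Z ≃ α ⊕ γ := Equiv.ofFreeGroupEquiv E₁
  have hfin : Finite (α ⊕ Z) := Finite.of_equiv _ hZ.symm
  have hZfin : Finite Z := Finite.of_injective (Sum.inr : Z → α ⊕ Z) Sum.inr_injective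
  have hcard : Nat.card Z = Nat.card γ := by
    have h1 := Nat.card_congr hZ
    rw [Nat.card_sum, Nat.card_sum] at h1
    omega
  let ζ : γ ≃ Z := (Finite.card_eq.mp hcard.symm).some
  let β : FreeGroup (α ⊕ γ) ≃* FreeGroup (α ⊕ γ) :=
    (FreeGroup.freeGroupCongr (Equiv.sumCongr (Equiv.refl α) ζ)).trans E₁
  have hβ : ∀ a : α, FreeGroup.map i (β (FreeGroup.of (Sum.inl a))) =
      θ (FreeGroup.of (i (Sum.inl a))) := by
    intro a
    have h1 : β (FreeGroup.of (Sum.inl a)) = E₁ (FreeGroup.of (Sum.inl a)) := by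
      simp [β]
    rw [h1, hE₁, he]
    rfl
  obtain ⟨ε, hε1, hε2⟩ := core_aux θ s R hR1 hR2 k hk β i hi hβ (by
    intro l hl j
    obtain ⟨h, hh⟩ := hX₀ l hl j
    exact ⟨h, hh⟩)
  exact ⟨α, γ, hα, hγ, β, ε, hε1, hε2⟩

end core

end Pool.Agent.Lib.MP_e7c36a_al
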