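import Mathlib

set_option autoImplicit false
set_option linter.unusedSimpArgs false

namespace Pool.Agent.Lib.MP_e7c36a_al

section coprod

open Monoid

variable {ι : Type*} {M N : ι → Type*} [∀ i, Group (M i)] [∀ i, Group (N i)]

/-- The homomorphism of free products induced by homomorphisms of the factors. -/
def cmap (f : ∀ i, M i →* N i) : CoprodI M →* CoprodI N :=
  CoprodI.lift (fun i => (CoprodI.of (M := N) (i := i)).comp (f i))

lemma cmap_injective (f : ∀ i, M i →* N i) (hf : ∀ i, Function.Injective (f i)) :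
    Function.Injective (cmap f) := by
  classical
  rw [injective_iff_map_eq_one]
  intro x hx
  obtain ⟨w, rfl⟩ : ∃ w : CoprodI.Word M, w.prod = x :=
    ⟨CoprodI.Word.equiv x, CoprodI.Word.equiv.symm_apply_apply x⟩
  let w' : CoprodI.Word N :=
    { toList := w.toList.map (fun l => ⟨l.1, f l.1 l.2⟩)
      ne_one := by
        intro l hl
        obtain ⟨l', hl', rfl⟩ := List.mem_map.mp hl
        intro h
        apply w.ne_one l' hl'
        apply hf
        rw [map_one]; exact h
      chain_ne := by
        rw [List.isChain_map]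
        exact w.chain_ne }
  have hw' : w'.prod = cmap f w.prod := by
    simp only [CoprodI.Word.prod, w', map_list_prod, List.map_map]
    congr 1
  have h1 : w' = CoprodI.Word.empty := by
    apply CoprodI.Word.equiv.symm.injective
    change w'.prod = CoprodI.Word.empty.prod
    rw [hw', hx, CoprodI.Word.prod_empty]
  have h2 : w'.toList = [] := by rw [h1]; rfl
  have h3 : w.toList = [] := List.map_eq_nil_iff.mp h2
  have h4 : w = CoprodI.Word.empty := CoprodI.Word.ext h3
  rw [h4, CoprodI.Word.prod_empty]

end coprod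

section fp

open Monoid

variable {γ T T' : Type}

/-- the two factors -/
def Fac (γ T : Type) : Bool → Type
  | true => FreeGroup γ
  | false => FreeGroup T

instance (γ T : Type) : ∀ i, Group (Fac γ T i)
  | true => inferInstanceAs (Group (FreeGroup γ))
  | false => inferInstanceAs (Group (FreeGroup T))

/-- first factor -/
def facL (γ T : Type) : FreeGroup γ →* CoprodI (Fac γ T) := CoprodI.of (M := Fac γ T) (i := true)
/-- second factor -/
def facR (γ T : Type) : FreeGroup T →* CoprodI (Fac γ T) := CoprodI.of (M := Fac γ T) (i := false)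

/-- free group on a sum to coproduct -/
def toFac (γ T : Type) : FreeGroup (γ ⊕ T) →* CoprodI (Fac γ T) :=
  FreeGroup.lift (Sum.elim (fun c => facL γ T (FreeGroup.of c)) (fun t => facR γ T (FreeGroup.of t)))

/-- components of the inverse -/
def ofFacAux (γ T : Type) : ∀ i, Fac γ T i →* FreeGroup (γ ⊕ T)
  | true => FreeGroup.map Sum.inl
  | false => FreeGroup.map Sum.inr

/-- coproduct to the free group on a sum -/
def ofFac (γ T : Type) : CoprodI (Fac γ T) →* FreeGroup (γ ⊕ T) :=
  CoprodI.lift (ofFacAux γ T)

lemma ofFac_facL (x : FreeGroup γ) : ofFac γ T (facL γ T x) = FreeGroup.map Sum.inl x :=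
  CoprodI.lift_of (ofFacAux γ T) (i := true) x

lemma ofFac_facR (x : FreeGroup T) : ofFac γ T (facR γ T x) = FreeGroup.map Sum.inr x :=
  CoprodI.lift_of (ofFacAux γ T) (i := false) x

lemma ofFac_toFac (x : FreeGroup (γ ⊕ T)) : ofFac γ T (toFac γ T x) = x := by
  have : (ofFac γ T).comp (toFac γ T) = MonoidHom.id _ := by
    ext a
    rcases a with c | t
    · simp [toFac, ofFac_facL]
    · simp [toFac, ofFac_facR]
  exact DFunLike.congr_fun this x

lemma toFac_map_inl (x : FreeGroup γ) : toFac γ T (FreeGroup.map Sum.inl x) = facL γ T x := by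
  have : (toFac γ T).comp (FreeGroup.map Sum.inl) = facL γ T := by
    ext a
    simp [toFac]
  exact DFunLike.congr_fun this x

lemma toFac_map_inr (x : FreeGroup T) : toFac γ T (FreeGroup.map Sum.inr x) = facR γ T x := by
  have : (toFac γ T).comp (FreeGroup.map Sum.inr) = facR γ T := by
    ext a
    simp [toFac]
  exact DFunLike.congr_fun this x

lemma toFac_ofFac (x : CoprodI (Fac γ T)) : toFac γ T (ofFac γ T x) = x := by
  have : (toFac γ T).comp (ofFac γ T) = MonoidHom.id _ := by
    apply CoprodI.ext_hom
    intro i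
    cases i with
    | true =>
      have key : ∀ x : FreeGroup γ, toFac γ T (ofFac γ T (facL γ T x)) = facL γ T x := by
        intro x
        rw [ofFac_facL, toFac_map_inl]
      exact MonoidHom.ext fun x => key x
    | false =>
      have key : ∀ x : FreeGroup T, toFac γ T (ofFac γ T (facR γ T x)) = facR γ T x := by
        intro x
        rw [ofFac_facR, toFac_map_inr]
      exact MonoidHom.ext fun x => key x
  exact DFunLike.congr_fun this x

/-- components of `id * f` -/
def facMap (f : FreeGroup T →* FreeGroup T') : ∀ i, Fac γ T i →* Fac γ T' i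
  | true => MonoidHom.id (FreeGroup γ)
  | false => f

/-- the homomorphism `id * f` -/
def idStar (γ : Type) (f : FreeGroup T →* FreeGroup T') :
    FreeGroup (γ ⊕ T) →* FreeGroup (γ ⊕ T') :=
  FreeGroup.lift (Sum.elim (fun c => FreeGroup.of (Sum.inl c))
    (fun t => FreeGroup.map Sum.inr (f (FreeGroup.of t))))

lemma cmap_facL (f : FreeGroup T →* FreeGroup T') (x : FreeGroup γ) :
    cmap (facMap f) (facL γ T x) = facL γ T' x :=
  CoprodI.lift_of (fun i => (CoprodI.of (M := Fac γ T') (i := i)).comp (facMap f i)) (i := true) x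

lemma cmap_facR (f : FreeGroup T →* FreeGroup T') (x : FreeGroup T) :
    cmap (facMap f) (facR γ T x) = facR γ T' (f x) :=
  CoprodI.lift_of (fun i => (CoprodI.of (M := Fac γ T') (i := i)).comp (facMap f i)) (i := false) x

lemma idStar_injective (f : FreeGroup T →* FreeGroup T') (hf : Function.Injective f) :
    Function.Injective (idStar γ f) := by
  have h1 : idStar γ f = ((ofFac γ T').comp (cmap (facMap f))).comp (toFac γ T) := by
    ext a
    rcases a with c | t
    · simp only [idStar, FreeGroup.lift_apply_of, Sum.elim_inl, MonoidHom.comp_apply, toFac]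
      rw [cmap_facL, ofFac_facL, FreeGroup.map.of]
    · simp only [idStar, FreeGroup.lift_apply_of, Sum.elim_inr, MonoidHom.comp_apply, toFac]
      rw [cmap_facR, ofFac_facR]
  rw [h1]
  have hA : Function.Injective (toFac γ T) :=
    Function.LeftInverse.injective (g := ofFac γ T) ofFac_toFac
  have hB : Function.Injective (ofFac γ T') :=
    Function.LeftInverse.injective (g := toFac γ T') toFac_ofFac
  have hC : Function.Injective (cmap (facMap (γ := γ) f)) := by
    apply cmap_injective
    intro i
    cases i with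
    | true => exact Function.injective_id
    | false => exact hf
  exact (hB.comp hC).comp hA

end fp

section model

variable {α γ : Type} (β : FreeGroup (α ⊕ γ) ≃* FreeGroup (α ⊕ γ))

/-- the abstract model of the positive half of the line of groups -/
abbrev FF (α γ : Type) : Type := FreeGroup ((α ⊕ γ) ⊕ (ℕ × γ))

/-- the free group containing all positive conjugates -/
abbrev PP (α γ : Type) : Type := FreeGroup (ℕ × (α ⊕ γ))

/-- the finite rank target -/
abbrev KK (α γ : Type) : Type := FreeGroup ((α ⊕ γ) ⊕ Unit)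

/-- the `k`-th copy -/
def cp (k : ℕ) : FreeGroup (α ⊕ γ) →* PP α γ := FreeGroup.map (fun y => (k, y))

/-- the endomorphism of the model -/
def thetaHat : FF α γ →* FF α γ :=
  FreeGroup.lift (Sum.elim
    (Sum.elim (fun a => FreeGroup.map Sum.inl (β (FreeGroup.of (Sum.inl a))))
      (fun c => FreeGroup.of (Sum.inr (0, c))))
    (fun p => FreeGroup.of (Sum.inr (p.1 + 1, p.2))))

/-- the endomorphism of `PP` -/
def Theta : PP α γ →* PP α γ :=
  FreeGroup.lift (fun p => Sum.elim (fun a => cp p.1 (β (FreeGroup.of (Sum.inl a))))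
    (fun c => cp (p.1 + 1) (β (FreeGroup.of (Sum.inr c)))) p.2)

/-- the map from the model to `PP` -/
def vP : FF α γ →* PP α γ :=
  FreeGroup.lift (Sum.elim (fun y => FreeGroup.of (0, y))
    (fun p => (Theta β)^[p.1 + 1] (FreeGroup.of (0, Sum.inr p.2))))

lemma vP_map_inl (h : FreeGroup (α ⊕ γ)) : vP β (FreeGroup.map Sum.inl h) = cp 0 h := by
  have : (vP β).comp (FreeGroup.map Sum.inl) = cp 0 := by
    ext a
    simp [vP, cp]
  exact DFunLike.congr_fun this h

lemma vP_thetaHat (w : FF α γ) : vP β (thetaHat β w) = Theta β (vP β w) := by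
  have : (vP β).comp (thetaHat β) = (Theta β).comp (vP β) := by
    ext a
    rcases a with (a | c) | p
    · simp only [thetaHat, MonoidHom.comp_apply, FreeGroup.lift_apply_of, Sum.elim_inl]
      rw [vP_map_inl]
      simp [vP, Theta]
    · simp [vP, thetaHat]
    · simp only [thetaHat, MonoidHom.comp_apply, FreeGroup.lift_apply_of, Sum.elim_inr, vP]
      rw [Function.iterate_succ_apply' _ (p.1 + 1)]
  exact DFunLike.congr_fun this w

/-- the change of basis of `PP` -/
def etaEquiv : γ ⊕ (ℕ × (α ⊕ γ)) → ℕ × (α ⊕ γ)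
  | Sum.inl c => (0, Sum.inr c)
  | Sum.inr (k, Sum.inl a) => (k, Sum.inl a)
  | Sum.inr (k, Sum.inr c) => (k + 1, Sum.inr c)

lemma etaEquiv_injective : Function.Injective (etaEquiv (α := α) (γ := γ)) := by
  rintro (c | ⟨k, a | c⟩) (c' | ⟨k', a' | c'⟩) h <;> simp [etaEquiv] at h ⊢ <;> omega

/-- `β` applied in each copy -/
def betaInf : PP α γ →* PP α γ := FreeGroup.lift (fun p => cp p.1 (β (FreeGroup.of p.2)))

lemma betaInf_cp (k : ℕ) (h : FreeGroup (α ⊕ γ)) : betaInf β (cp k h) = cp k (β h) := by
  have : (betaInf β).comp (cp k) = (cp k).comp β.toMonoidHom := by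
    ext a
    simp [betaInf, cp]
  exact DFunLike.congr_fun this h

lemma betaInf_injective : Function.Injective (betaInf β) := by
  apply Function.LeftInverse.injective (g := betaInf β.symm)
  intro x
  have : (betaInf β.symm).comp (betaInf β) = MonoidHom.id _ := by
    ext p
    simp only [MonoidHom.comp_apply, MonoidHom.id_apply]
    have h1 : betaInf β (FreeGroup.of p) = cp p.1 (β (FreeGroup.of p.2)) := by simp [betaInf]
    rw [h1, betaInf_cp, MulEquiv.symm_apply_apply]
    simp [cp]
  exact DFunLike.congr_fun this x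

/-- the isomorphism `D * Θ(P) = P` -/
def eta : FreeGroup (γ ⊕ (ℕ × (α ⊕ γ))) →* PP α γ :=
  (betaInf β).comp (FreeGroup.map etaEquiv)

lemma eta_injective : Function.Injective (eta β) :=
  (betaInf_injective β).comp (FreeGroup.map_injective etaEquiv_injective)

lemma eta_inr (x : PP α γ) : eta β (FreeGroup.map Sum.inr x) = Theta β x := by
  have : (eta β).comp (FreeGroup.map Sum.inr) = Theta β := by
    ext p
    rcases p with ⟨k, a | c⟩
    · simp [eta, Theta, etaEquiv, betaInf]
    · simp [eta, Theta, etaEquiv, betaInf]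
  exact DFunLike.congr_fun this x

/-- finite levels of the model -/
abbrev FN (α γ : Type) (N : ℕ) : Type := FreeGroup ((α ⊕ γ) ⊕ (Fin N × γ))

/-- inclusion of a finite level -/
def incl (N : ℕ) : FN α γ N →* FF α γ :=
  FreeGroup.map (Sum.map id (Prod.map Fin.val id))

/-- the map `D * F_N → F_{N+1}` -/
def epsN (N : ℕ) : FreeGroup (γ ⊕ ((α ⊕ γ) ⊕ (Fin N × γ))) →* FN α γ (N + 1) :=
  FreeGroup.lift (Sum.elim (fun c => FreeGroup.map Sum.inl (β (FreeGroup.of (Sum.inr c))))
    (Sum.elim
      (Sum.elim (fun a => FreeGroup.map Sum.inl (β (FreeGroup.of (Sum.inl a))))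
        (fun c => FreeGroup.of (Sum.inr (0, c))))
      (fun p => FreeGroup.of (Sum.inr (p.1.succ, p.2)))))

lemma epsN_surjective (N : ℕ) : Function.Surjective (epsN β N) := by
  rw [← MonoidHom.range_eq_top, ← top_le_iff]
  have hH : ∀ h : FreeGroup (α ⊕ γ), FreeGroup.map Sum.inl (β h) ∈ (epsN β N).range := by
    intro h
    induction h using FreeGroup.induction_on with
    | C1 => simp [one_mem]
    | of y =>
      rcases y with a | c
      · exact ⟨FreeGroup.of (Sum.inr (Sum.inl (Sum.inl a))), by simp [epsN]⟩
      · exact ⟨FreeGroup.of (Sum.inl c), by simp [epsN]⟩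
    | inv_of y h => rw [map_inv, map_inv]; exact inv_mem h
    | mul x y hx hy => rw [map_mul, map_mul]; exact mul_mem hx hy
  intro w _
  induction w using FreeGroup.induction_on with
  | C1 => exact one_mem _
  | of y =>
    rcases y with y | ⟨i, c⟩
    · have := hH (β.symm (FreeGroup.of y))
      rwa [MulEquiv.apply_symm_apply, FreeGroup.map.of] at this
    · refine Fin.cases ?_ (fun j => ?_) i
      · exact ⟨FreeGroup.of (Sum.inr (Sum.inl (Sum.inr c))), by simp [epsN]⟩
      · exact ⟨FreeGroup.of (Sum.inr (Sum.inr (j, c))), by simp [epsN]⟩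
  | inv_of y h => exact inv_mem (h trivial)
  | mul x y hx hy => exact mul_mem (hx trivial) (hy trivial)

lemma level_eq (N : ℕ) (w : FreeGroup (γ ⊕ ((α ⊕ γ) ⊕ (Fin N × γ)))) :
    vP β (incl (N + 1) (epsN β N w)) = eta β (idStar γ ((vP β).comp (incl N)) w) := by
  have : ((vP β).comp (incl (N + 1))).comp (epsN β N) =
      (eta β).comp (idStar γ ((vP β).comp (incl N))) := by
    have hincl : ∀ h : FreeGroup (α ⊕ γ), incl (α := α) (γ := γ) (N + 1) (FreeGroup.map Sum.inl h) =
        FreeGroup.map Sum.inl h := by
      intro h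
      rw [incl, FreeGroup.map.comp]
      rfl
    ext a
    rcases a with c | t
    · simp only [MonoidHom.comp_apply, epsN, FreeGroup.lift_apply_of, Sum.elim_inl, idStar]
      rw [hincl, vP_map_inl]
      simp [eta, etaEquiv, betaInf]
    · have h1 : incl (N + 1) (epsN β N (FreeGroup.of (Sum.inr t))) =
          thetaHat β (incl N (FreeGroup.of t)) := by
        rcases t with (a | c) | p
        · simp only [epsN, FreeGroup.lift_apply_of, Sum.elim_inl, Sum.elim_inr]
          rw [hincl]
          simp [incl, thetaHat]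
        · simp [epsN, incl, thetaHat]
        · simp [epsN, incl, thetaHat]
      simp only [MonoidHom.comp_apply]
      rw [h1, vP_thetaHat]
      simp only [idStar, FreeGroup.lift_apply_of, Sum.elim_inr]
      rw [eta_inr]
      rfl
  exact DFunLike.congr_fun this w

lemma level_injective (N : ℕ) : Function.Injective ((vP β).comp (incl N)) := by
  induction N with
  | zero =>
    have h1 : ∀ w : FN α γ 0, ∃ h : FreeGroup (α ⊕ γ), w = FreeGroup.map Sum.inl h := by
      intro w
      induction w using FreeGroup.induction_on with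
      | C1 => exact ⟨1, by simp⟩
      | of y =>
        rcases y with y | ⟨i, c⟩
        · exact ⟨FreeGroup.of y, by simp⟩
        · exact i.elim0
      | inv_of y h => obtain ⟨h, hh⟩ := h; exact ⟨h⁻¹, by rw [hh, map_inv]⟩
      | mul x y hx hy =>
        obtain ⟨h, hh⟩ := hx
        obtain ⟨k, hk⟩ := hy
        exact ⟨h * k, by rw [hh, hk, map_mul]⟩
    rw [injective_iff_map_eq_one]
    intro w hw
    obtain ⟨h, rfl⟩ := h1 w
    have h2 : incl (α := α) (γ := γ) 0 (FreeGroup.map Sum.inl h) = FreeGroup.map Sum.inl h := by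
      rw [incl, FreeGroup.map.comp]; rfl
    rw [MonoidHom.comp_apply, h2, vP_map_inl] at hw
    have h3 : Function.Injective (cp (α := α) (γ := γ) 0) := by
      apply FreeGroup.map_injective
      intro a b hab
      simpa using hab
    have : h = 1 := h3 (by rw [hw, map_one])
    rw [this, map_one]
  | succ N ih =>
    rw [injective_iff_map_eq_one]
    intro w hw
    obtain ⟨w', rfl⟩ := epsN_surjective β N w
    rw [MonoidHom.comp_apply, level_eq] at hw
    have h1 : idStar γ ((vP β).comp (incl N)) w' = 1 := eta_injective β (by rw [hw, map_one])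
    have h2 : w' = 1 := idStar_injective _ ih (by rw [h1, map_one])
    rw [h2, map_one]

lemma exists_level (w : FF α γ) : ∃ N, ∃ w' : FN α γ N, incl N w' = w := by
  have mono : ∀ N N' : ℕ, N ≤ N' → ∀ w' : FN α γ N, ∃ w'' : FN α γ N', incl N' w'' = incl N w' := by
    intro N N' h w'
    refine ⟨FreeGroup.map (Sum.map id (Prod.map (Fin.castLE h) id)) w', ?_⟩
    rw [incl, FreeGroup.map.comp]
    congr 2
    funext x
    rcases x with y | ⟨i, c⟩ <;> simp
  induction w using FreeGroup.induction_on with
  | C1 => exact ⟨0, 1, map_one _⟩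
  | of y =>
    rcases y with y | ⟨i, c⟩
    · exact ⟨0, FreeGroup.of (Sum.inl y), by simp [incl]⟩
    · exact ⟨i + 1, FreeGroup.of (Sum.inr (Fin.last i, c)), by simp [incl]⟩
  | inv_of y h => obtain ⟨N, w', hw'⟩ := h; exact ⟨N, w'⁻¹, by rw [map_inv, hw']⟩
  | mul x y hx hy =>
    obtain ⟨N, w', hw'⟩ := hx
    obtain ⟨N', w'', hw''⟩ := hy
    obtain ⟨a, ha⟩ := mono N (max N N') (le_max_left _ _) w'
    obtain ⟨b, hb⟩ := mono N' (max N N') (le_max_right _ _) w''
    exact ⟨max N N', a * b, by rw [map_mul, ha, hb, hw', hw'']⟩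

/-- The map from the model to `PP` is injective. -/
lemma vP_injective : Function.Injective (vP β) := by
  rw [injective_iff_map_eq_one]
  intro w hw
  obtain ⟨N, w', rfl⟩ := exists_level w
  have : w' = 1 := level_injective β N (by rw [MonoidHom.comp_apply, hw, map_one])
  rw [this, map_one]

end model

end Pool.Agent.Lib.MP_e7c36a_al
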