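import Mathlib

set_option autoImplicit false
set_option linter.unusedSimpArgs false

namespace Pool.Agent.Lib.MP_e7c36a_al

open FreeGroup (IsReduced isReduced_toWord)

section rf

variable {α : Type*}

lemma reduced_consec {L : List (α × Bool)} (hL : IsReduced L) {i : ℕ} {a : α} {b b' : Bool}
    (h1 : L[i]? = some (a, b)) (h2 : L[i + 1]? = some (a, b')) : b = b' := by
  have h := List.isChain_iff_getElem.mp hL
  obtain ⟨hi, h1'⟩ := List.getElem?_eq_some_iff.mp h1
  obtain ⟨hi2, h2'⟩ := List.getElem?_eq_some_iff.mp h2
  have h3 := h i (by omega)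
  rw [h1', h2'] at h3
  exact h3 rfl

/-- The partial permutation attached to a reduced word extends to a permutation. -/
lemma exists_perm {L : List (α × Bool)} (hL : IsReduced L) (a : α) :
    ∃ σ : Equiv.Perm (Fin (L.length + 1)),
      (∀ (i : ℕ) (hi : i < L.length), L[i]? = some (a, true) →
        σ ⟨i + 1, by omega⟩ = ⟨i, by omega⟩) ∧
      (∀ (i : ℕ) (hi : i < L.length), L[i]? = some (a, false) →
        σ ⟨i, by omega⟩ = ⟨i + 1, by omega⟩) := by
  classical
  let s : Finset (Fin (L.length + 1)) := Finset.univ.filter
    (fun j => (1 ≤ (j : ℕ) ∧ L[(j : ℕ) - 1]? = some (a, true)) ∨ L[(j : ℕ)]? = some (a, false))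
  let f : Fin (L.length + 1) → Fin (L.length + 1) := fun j =>
    if 1 ≤ (j : ℕ) ∧ L[(j : ℕ) - 1]? = some (a, true) then ⟨j - 1, by omega⟩
    else ⟨min (j + 1) L.length, by omega⟩
  have hinj : Set.InjOn f s := by
    intro j hj k hk hjk
    simp only [s, Finset.coe_filter, Finset.mem_univ, true_and, Set.mem_ofPred_eq] at hj hk
    have lt_of_some : ∀ i : ℕ, ∀ x, L[i]? = some x → i < L.length := by
      intro i x hx
      exact (List.getElem?_eq_some_iff.mp hx).1
    by_cases h1 : 1 ≤ (j : ℕ) ∧ L[(j : ℕ) - 1]? = some (a, true)
    · by_cases h2 : 1 ≤ (k : ℕ) ∧ L[(k : ℕ) - 1]? = some (a, true)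
      · simp only [f, h1, h2, and_self, if_true] at hjk
        have := congrArg Fin.val hjk
        simp only at this
        apply Fin.ext
        omega
      · have hk' := hk.resolve_left h2
        simp only [f, h1, h2, and_self, if_true, if_false] at hjk
        have := congrArg Fin.val hjk
        simp only at this
        have hlt := lt_of_some _ _ hk'
        exfalso
        have e : (j : ℕ) - 1 = (k : ℕ) + 1 := by omega
        have h3 := h1.2
        rw [e] at h3
        exact absurd (reduced_consec hL hk' h3) (by decide)
    · have hj' := hj.resolve_left h1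
      by_cases h2 : 1 ≤ (k : ℕ) ∧ L[(k : ℕ) - 1]? = some (a, true)
      · simp only [f, h1, h2, and_self, if_true, if_false] at hjk
        have := congrArg Fin.val hjk
        simp only at this
        have hlt := lt_of_some _ _ hj'
        exfalso
        have e : (k : ℕ) - 1 = (j : ℕ) + 1 := by omega
        have h3 := h2.2
        rw [e] at h3
        exact absurd (reduced_consec hL hj' h3) (by decide)
      · have hk' := hk.resolve_left h2
        simp only [f, h1, h2, if_false] at hjk
        have := congrArg Fin.val hjk
        simp only at this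
        have hlt := lt_of_some _ _ hj'
        have hlt' := lt_of_some _ _ hk'
        apply Fin.ext
        omega
  obtain ⟨g, hg⟩ := Finset.exists_equiv_extend_of_card_eq (t := Finset.univ)
    (by simp) (Finset.subset_univ _) hinj
  let σ : Equiv.Perm (Fin (L.length + 1)) := g.trans (Equiv.subtypeUnivEquiv (by simp))
  have hσ : ∀ i ∈ s, σ i = f i := fun i hi => hg i hi
  refine ⟨σ, ?_, ?_⟩
  · intro i hi h
    rw [hσ]
    · simp only [f]
      rw [if_pos ⟨by omega, by simpa using h⟩]
      simp
    · simp only [s, Finset.mem_filter, Finset.mem_univ, true_and]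
      left
      exact ⟨by omega, by simpa using h⟩
  · intro i hi h
    rw [hσ]
    · simp only [f]
      rw [if_neg]
      · simp only [Fin.mk.injEq]
        omega
      · rintro ⟨h1, h2⟩
        have e : i = (i - 1) + 1 := by omega
        rw [e] at h
        exact absurd (reduced_consec hL h2 h) (by decide)
    · simp only [s, Finset.mem_filter, Finset.mem_univ, true_and]
      right
      exact h

/-- Free groups are residually finite. -/
lemma exists_perm_rep (w : FreeGroup α) (hw : w ≠ 1) :
    ∃ (n : ℕ) (f : FreeGroup α →* Equiv.Perm (Fin n)), f w ≠ 1 := by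
  classical
  set L := w.toWord with hLdef
  have hL : IsReduced L := isReduced_toWord
  choose σ hσ1 hσ2 using exists_perm hL
  refine ⟨L.length + 1, FreeGroup.lift σ, ?_⟩
  have key : ∀ k : ℕ, ∀ i : ℕ, (hi : i + k = L.length) →
      FreeGroup.lift σ (FreeGroup.mk (L.drop i)) ⟨L.length, by omega⟩ = ⟨i, by omega⟩ := by
    intro k
    induction k with
    | zero =>
      intro i hi
      have : L.drop i = [] := List.drop_eq_nil_of_le (by omega)
      rw [this, ← FreeGroup.one_eq_mk, map_one]
      simp only [Equiv.Perm.coe_one, id_eq, Fin.mk.injEq]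
      omega
    | succ k ih =>
      intro i hi
      have hlt : i < L.length := by omega
      have h1 := ih (i + 1) (by omega)
      rw [List.drop_eq_getElem_cons hlt]
      have h2 : (FreeGroup.mk (L[i] :: L.drop (i + 1)) : FreeGroup α) =
          FreeGroup.mk [L[i]] * FreeGroup.mk (L.drop (i + 1)) := by
        rw [FreeGroup.mul_mk]; rfl
      rw [h2, map_mul, Equiv.Perm.mul_apply, h1]
      rcases hLi : L[i] with ⟨a, b⟩
      have hLi' : L[i]? = some (a, b) := by
        rw [List.getElem?_eq_getElem hlt, hLi]
      rw [FreeGroup.lift_mk]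
      simp only [List.map_cons, List.map_nil, List.prod_cons, List.prod_nil, mul_one]
      cases b with
      | true =>
        simp only [cond_true]
        exact hσ1 a i hlt hLi'
      | false =>
        simp only [cond_false]
        rw [Equiv.Perm.inv_eq_iff_eq]
        exact (hσ2 a i hlt hLi').symm
  intro h
  have h0 := key L.length 0 (by omega)
  have hmk : FreeGroup.mk L = w := FreeGroup.mk_toWord
  rw [List.drop_zero, hmk, h] at h0
  simp only [Equiv.Perm.coe_one, id_eq, Fin.mk.injEq] at h0
  apply hw
  rw [← FreeGroup.toWord_eq_nil_iff]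
  exact List.length_eq_zero_iff.mp h0

/-- Finitely generated free groups are Hopfian. -/
lemma hopf {ι : Type*} [Finite ι] (g : FreeGroup ι →* FreeGroup ι)
    (hg : Function.Surjective g) : Function.Injective g := by
  rw [injective_iff_map_eq_one]
  intro w hw
  by_contra hne
  obtain ⟨n, f, hf⟩ := exists_perm_rep w hne
  have hfin : Finite (FreeGroup ι →* Equiv.Perm (Fin n)) :=
    Finite.of_equiv _ (FreeGroup.lift (α := ι) (β := Equiv.Perm (Fin n)))
  have hinj : Function.Injective
      (fun φ : FreeGroup ι →* Equiv.Perm (Fin n) => φ.comp g) := by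
    intro φ ψ h
    ext1 x
    obtain ⟨y, hy⟩ := hg (FreeGroup.of x)
    have := DFunLike.congr_fun h y
    simp only [MonoidHom.comp_apply] at this
    rw [← hy, this]
  obtain ⟨φ, hφ⟩ := (Finite.injective_iff_surjective.mp hinj) f
  apply hf
  have := DFunLike.congr_fun hφ w
  simp only [MonoidHom.comp_apply] at this
  rw [← this, hw, map_one]

end rf

section h1

lemma map_mem_commutator {P Q : Type*} [Group P] [Group Q] (f : P →* Q) {x : P}
    (hx : x ∈ commutator P) : f x ∈ commutator Q := by
  have h1 : (commutator P).map f ≤ commutator Q := by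
    rw [commutator_def, commutator_def, Subgroup.map_commutator]
    exact Subgroup.commutator_mono le_top le_top
  exact h1 (Subgroup.mem_map_of_mem f hx)

lemma exists_preimage_commutator {P Q : Type*} [Group P] [Group Q] (f : P →* Q)
    (hf : Function.Surjective f) {x : Q}
    (hx : x ∈ commutator Q) : ∃ y ∈ commutator P, f y = x := by
  have h1 : commutator Q ≤ (commutator P).map f := by
    rw [commutator_def, commutator_def, Subgroup.map_commutator]
    rw [Subgroup.map_top_of_surjective f hf]
  exact h1 hx

/-- A homomorphism from a finitely generated free group to a free group which is injective on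
abelianizations is injective. -/
lemma injective_of_finite {ι : Type*} [Finite ι] {Q : Type*} [Group Q] [IsFreeGroup Q]
    (g : FreeGroup ι →* Q) (h : ∀ z, g z ∈ commutator Q → z ∈ commutator (FreeGroup ι)) :
    Function.Injective g := by
  let M := g.range
  let e := IsFreeGroup.toFreeGroup M
  let g' : FreeGroup ι →* M := g.rangeRestrict
  have hg' : Function.Surjective g' := g.rangeRestrict_surjective
  -- the induced map on abelianizations is bijective
  let φ : Abelianization (FreeGroup ι) →* Abelianization (FreeGroup (IsFreeGroup.Generators M)) :=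
    Abelianization.map (e.toMonoidHom.comp g')
  have hφ : Function.Bijective φ := by
    constructor
    · rw [injective_iff_map_eq_one]
      intro a ha
      obtain ⟨x, rfl⟩ : ∃ x, Abelianization.of x = a := QuotientGroup.mk_surjective a
      have h1 : Abelianization.of (e (g' x)) = 1 := ha
      have h2 : e (g' x) ∈ commutator (FreeGroup (IsFreeGroup.Generators M)) := by
        rw [← Abelianization.ker_of]
        exact h1
      have h3 : g' x ∈ commutator M := by
        have := map_mem_commutator e.symm.toMonoidHom h2
        simpa using this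
      have h4 : g x ∈ commutator Q := by
        exact map_mem_commutator M.subtype h3
      have h5 := h x h4
      rw [← Abelianization.ker_of] at h5
      exact h5
    · intro a
      obtain ⟨x, rfl⟩ : ∃ x, Abelianization.of x = a := QuotientGroup.mk_surjective a
      obtain ⟨y, hy⟩ := hg' (e.symm x)
      refine ⟨Abelianization.of y, ?_⟩
      have : φ (Abelianization.of y) = Abelianization.of (e (g' y)) := rfl
      rw [this, hy, MulEquiv.apply_symm_apply]
  let ψ : Abelianization (FreeGroup ι) ≃* Abelianization (FreeGroup (IsFreeGroup.Generators M)) :=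
    MulEquiv.ofBijective φ hφ
  let ε : ι ≃ IsFreeGroup.Generators M := Equiv.ofFreeAbelianGroupEquiv (MulEquiv.toAdditive ψ)
  let k : FreeGroup ι →* FreeGroup ι :=
    ((FreeGroup.freeGroupCongr ε).symm.toMonoidHom.comp e.toMonoidHom).comp g'
  have hk : Function.Surjective k := by
    intro x
    obtain ⟨y, hy⟩ := hg' (e.symm (FreeGroup.freeGroupCongr ε x))
    refine ⟨y, ?_⟩
    change (FreeGroup.freeGroupCongr ε).symm (e (g' y)) = x
    rw [hy, MulEquiv.apply_symm_apply, MulEquiv.symm_apply_apply]
  have hki := hopf k hk
  intro x y hxy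
  apply hki
  have : g' x = g' y := Subtype.ext hxy
  simp [k, this]

lemma exists_finset_range {Y : Type*} (w : FreeGroup Y) :
    ∃ T : Finset Y, w ∈ (FreeGroup.map (Subtype.val : T → Y)).range := by
  classical
  have mono : ∀ (T T' : Finset Y), T ⊆ T' → (FreeGroup.map (Subtype.val : T → Y)).range ≤
      (FreeGroup.map (Subtype.val : T' → Y)).range := by
    intro T T' hT
    rintro x ⟨y, rfl⟩
    refine ⟨FreeGroup.map (fun t : T => (⟨t.1, hT t.2⟩ : T')) y, ?_⟩
    rw [FreeGroup.map.comp]
    rfl
  induction w using FreeGroup.induction_on with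
  | C1 => exact ⟨∅, one_mem _⟩
  | of y => exact ⟨{y}, FreeGroup.of ⟨y, by simp⟩, by simp⟩
  | inv_of y h =>
    obtain ⟨T, hT⟩ := h
    exact ⟨T, inv_mem hT⟩
  | mul x y hx hy =>
    obtain ⟨T, hT⟩ := hx
    obtain ⟨T', hT'⟩ := hy
    exact ⟨T ∪ T', mul_mem (mono _ _ Finset.subset_union_left hT)
      (mono _ _ Finset.subset_union_right hT')⟩

/-- A homomorphism between free groups which is injective on abelianizations is injective. -/
lemma injective_of_commutator {P Q : Type*} [Group P] [Group Q] [IsFreeGroup P] [IsFreeGroup Q]
    (q : P →* Q) (h : ∀ z, q z ∈ commutator Q → z ∈ commutator P) : Function.Injective q := by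
  classical
  rw [injective_iff_map_eq_one]
  intro z hz
  let e := IsFreeGroup.toFreeGroup P
  obtain ⟨T, w, hw⟩ := exists_finset_range (e z)
  let i : FreeGroup T →* P := e.symm.toMonoidHom.comp (FreeGroup.map (Subtype.val))
  let r : P →* FreeGroup T := (FreeGroup.lift (fun y => if hy : y ∈ T then
    FreeGroup.of (⟨y, hy⟩ : T) else 1)).comp e.toMonoidHom
  have hri : ∀ x, r (i x) = x := by
    intro x
    have : r.comp i = MonoidHom.id _ := by
      ext t
      simp [r, i]
    exact DFunLike.congr_fun this x
  have hinj := injective_of_finite (q.comp i) (by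
    intro x hx
    have h1 := h (i x) hx
    have h2 := map_mem_commutator r h1
    rwa [hri] at h2)
  have hzi : i w = z := by
    simp [i, hw]
  have : w = 1 := by
    apply hinj
    rw [map_one, MonoidHom.comp_apply, hzi, hz]
  rw [← hzi, this, map_one]

end h1

end Pool.Agent.Lib.MP_e7c36a_al
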